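import Mathlib

set_option autoImplicit false

open ContinuousLinearMap

namespace Pool.Agent.W753.CZ

variable {H : Type*} [NormedAddCommGroup H] [InnerProductSpace ℂ H] [CompleteSpace H]

/-- Elementary recursion: a real sequence with `t (γ (k+1) - κ γ k) ≤ δ` for `k ≥ 1`, bounded below,
where `κ > 2`, cannot have `γ 1 ≤ κ b`, `δ = b - γ 1 / κ`, `b < 0`. -/
theorem recursion_false (κ b B : ℝ) (γ : ℕ → ℝ) (hκ : 2 < κ) (hb : b < 0)
    (hδ : 0 ≤ b - γ 1 / κ)
    (hrec : ∀ k, 1 ≤ k → (1 - 1 / κ) * (γ (k + 1) - κ * γ k) ≤ b - γ 1 / κ)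
    (hlow : ∀ k, -B ≤ γ (k + 1)) : False := by
  have hκ0 : (0 : ℝ) < κ := by linarith
  have hκ1 : (0 : ℝ) < κ - 1 := by linarith
  set δ := b - γ 1 / κ with hδdef
  set c := δ * κ / (κ - 1) ^ 2 with hc
  have hγ1 : γ 1 < 0 := by
    have h1 : γ 1 / κ ≤ b := by linarith
    have h2 : γ 1 / κ < 0 := by linarith
    rcases div_neg_iff.mp h2 with h | h
    · linarith [h.2]
    · exact h.1
  have hneg : γ 1 + c < 0 := by
    have hsq : (1 : ℝ) < (κ - 1) ^ 2 := by nlinarith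
    have e1 : γ 1 + c = (γ 1 * ((κ - 1) ^ 2 - 1) + b * κ) / (κ - 1) ^ 2 := by
      rw [hc, hδdef]
      field_simp
      ring
    rw [e1]
    apply div_neg_of_neg_of_pos
    · nlinarith
    · positivity
  have hstep : ∀ k, 1 ≤ k → γ (k + 1) + c ≤ κ * (γ k + c) := by
    intro k hk
    have h := hrec k hk
    have h1 : (1 - 1 / κ) = (κ - 1) / κ := by field_simp
    rw [h1] at h
    have h2 : γ (k + 1) - κ * γ k ≤ δ * κ / (κ - 1) := by
      rw [le_div_iff₀ hκ1]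
      have := mul_le_mul_of_nonneg_left h hκ0.le
      have e : κ * ((κ - 1) / κ * (γ (k + 1) - κ * γ k)) = (γ (k + 1) - κ * γ k) * (κ - 1) := by
        field_simp
      rw [e] at this
      linarith
    have h3 : κ * c - c = δ * κ / (κ - 1) := by
      rw [hc]; field_simp
    linarith
  have hpow : ∀ k, γ (k + 1) + c ≤ κ ^ k * (γ 1 + c) := by
    intro k
    induction k with
    | zero => simp
    | succ k ih =>
      calc γ (k + 1 + 1) + c ≤ κ * (γ (k + 1) + c) := hstep (k + 1) (by omega)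
        _ ≤ κ * (κ ^ k * (γ 1 + c)) := by gcongr
        _ = κ ^ (k + 1) * (γ 1 + c) := by ring
  have hc0 : 0 ≤ c := by rw [hc]; positivity
  obtain ⟨n, hn⟩ := pow_unbounded_of_one_lt ((B + 1) / (-(γ 1 + c))) (show (1 : ℝ) < κ by linarith)
  have h1 := hpow n
  have h2 := hlow n
  rw [div_lt_iff₀ (by linarith)] at hn
  nlinarith

/-- The abstract core: Toeplitz positivity on three indices forces `‖T‖ ≤ 2`. -/
theorem core (T : H →L[ℂ] H) (G : ℕ → H →L[ℂ] H) (hcomm : ∀ n, T * G n = G n * T)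
    (B : ℝ) (hB : ∀ n, ‖T ^ n * G (n + 1)‖ ≤ B)
    (hpos : ∀ k, 1 ≤ k → ∀ a b c : H,
      0 ≤ ‖a‖ ^ 2 + ‖b‖ ^ 2 + ‖c‖ ^ 2 + (inner ℂ b ((T ^ k + star (G k)) a)).re
        + (inner ℂ c ((T ^ (k + 1) + star (G (k + 1))) a)).re
        + (inner ℂ c ((T ^ 1 + star (G 1)) b)).re) :
    ‖T‖ ≤ 2 := by
  by_contra hcon
  push Not at hcon
  set κ := ‖T‖ with hκ
  have hκ0 : 0 < κ := by linarith
  have hκ1 : 0 < κ - 1 := by linarith
  have hB0 : 0 ≤ B := (norm_nonneg _).trans (hB 0)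
  -- choose the small parameter
  set q : ℝ := min 1 ((κ - 2) / (4 * (κ - 1 + κ * B))) with hq
  have hD : 0 < κ - 1 + κ * B := by positivity
  have hq0 : 0 < q := by
    rw [hq]; apply lt_min one_pos; apply div_pos <;> linarith
  have hq1 : q ≤ 1 := min_le_left _ _
  have hq2 : 2 * ((κ - 1 + κ * B) * q) < κ - 2 := by
    have : q ≤ (κ - 2) / (4 * (κ - 1 + κ * B)) := min_le_right _ _
    calc 2 * ((κ - 1 + κ * B) * q) ≤ 2 * ((κ - 1 + κ * B) * ((κ - 2) / (4 * (κ - 1 + κ * B)))) := by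
          gcongr
      _ = (κ - 2) / 2 := by field_simp; ring
      _ < κ - 2 := by linarith
  have hr : κ * (1 - q ^ 2) < ‖star T‖ := by
    rw [norm_star, ← hκ]
    nlinarith [mul_pos hκ0 (pow_pos hq0 2)]
  obtain ⟨y, hy1, hy2⟩ := ContinuousLinearMap.exists_lt_apply_of_lt_opNorm (star T) hr
  set x : H := ((κ⁻¹ : ℝ) : ℂ) • (star T) y with hx
  have hTy : (star T) y = ((κ : ℝ) : ℂ) • x := by
    rw [hx, smul_smul, ← Complex.ofReal_mul, mul_inv_cancel₀ hκ0.ne', Complex.ofReal_one, one_smul]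
  have hmul : ∀ (S R : H →L[ℂ] H) (u : H), (S * R) u = S (R u) := fun _ _ _ => rfl
  have hadj : ∀ (S : H →L[ℂ] H) (u v : H), inner ℂ ((star S) u) v = inner ℂ u (S v) := by
    intro S u v; rw [ContinuousLinearMap.star_eq_adjoint, adjoint_inner_left]
  have hadj' : ∀ (S : H →L[ℂ] H) (u v : H), inner ℂ u ((star S) v) = inner ℂ (S u) v := by
    intro S u v; rw [ContinuousLinearMap.star_eq_adjoint, adjoint_inner_right]
  set s := ‖x‖ ^ 2 with hs
  have hxn : ‖x‖ = κ⁻¹ * ‖(star T) y‖ := by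
    rw [hx, norm_smul, Complex.norm_real, Real.norm_of_nonneg (by positivity)]
  have hx1 : ‖x‖ ≤ 1 := by
    rw [hxn]
    have : ‖(star T) y‖ ≤ κ * 1 := by
      refine ((star T).le_opNorm y).trans ?_
      rw [norm_star, ← hκ]
      gcongr
    calc κ⁻¹ * ‖(star T) y‖ ≤ κ⁻¹ * (κ * 1) := by gcongr
      _ = 1 := by field_simp
  have hxl : 1 - q ^ 2 < ‖x‖ := by
    rw [hxn]
    calc 1 - q ^ 2 = κ⁻¹ * (κ * (1 - q ^ 2)) := by field_simp
      _ < κ⁻¹ * ‖(star T) y‖ := by gcongr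
  have hq21 : 0 ≤ 1 - q ^ 2 := by nlinarith
  have hs1 : s ≤ 1 := by rw [hs]; nlinarith [norm_nonneg x]
  have hsl : 1 - 2 * q ^ 2 ≤ s := by
    rw [hs]
    nlinarith [norm_nonneg x, sq_nonneg (q ^ 2)]
  -- the error vector
  set e : H := y - ((κ⁻¹ : ℝ) : ℂ) • T x with he
  have hyx : (inner ℂ y (T x)).re = κ * s := by
    rw [← hadj, hTy, inner_smul_left, Complex.conj_ofReal, Complex.re_ofReal_mul, hs]
    congr 1
    exact inner_self_eq_norm_sq (𝕜 := ℂ) x
  have hTx : ‖T x‖ ^ 2 ≤ κ ^ 2 * s := by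
    rw [hs, ← mul_pow]
    gcongr
    exact T.le_opNorm x
  have hesq : ‖e‖ ^ 2 ≤ 1 - s := by
    have h1 := norm_sub_sq (𝕜 := ℂ) y (((κ⁻¹ : ℝ) : ℂ) • T x)
    rw [← he] at h1
    rw [h1, inner_smul_right, norm_smul, Complex.norm_real, Real.norm_of_nonneg (by positivity : (0:ℝ) ≤ κ⁻¹)]
    have h2 : RCLike.re (((κ⁻¹ : ℝ) : ℂ) * inner ℂ y (T x)) = s := by
      have : RCLike.re (((κ⁻¹ : ℝ) : ℂ) * inner ℂ y (T x)) = κ⁻¹ * (inner ℂ y (T x)).re := by
        rw [RCLike.re_eq_complex_re, Complex.re_ofReal_mul]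
      rw [this, hyx]; field_simp
    rw [h2]
    have h3 : (κ⁻¹ * ‖T x‖) ^ 2 ≤ s := by
      rw [mul_pow]
      calc κ⁻¹ ^ 2 * ‖T x‖ ^ 2 ≤ κ⁻¹ ^ 2 * (κ ^ 2 * s) := by gcongr
        _ = s := by field_simp
    have h4 : ‖y‖ ^ 2 ≤ 1 := by nlinarith [norm_nonneg y]
    linarith
  have he2 : ‖e‖ ≤ 2 * q := by
    apply abs_le_of_sq_le_sq' _ (by positivity) |>.2
    nlinarith
  have hydec : y = ((κ⁻¹ : ℝ) : ℂ) • T x + e := by rw [he]; abel
  set γ : ℕ → ℝ := fun k => (inner ℂ x ((T ^ k * G k) x)).re with hγ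
  -- commutation of powers
  have hcomm' : ∀ k n, (T ^ k * G n) * T = T ^ (k + 1) * G n := by
    intro k n
    rw [mul_assoc, ← hcomm, ← mul_assoc, ← pow_succ]
  -- the error estimate
  have herr : ∀ k, |(inner ℂ ((T ^ k * G (k + 1)) y) x).re - γ (k + 1) / κ| ≤ B * ‖e‖ := by
    intro k
    have h1 : (T ^ k * G (k + 1)) y =
        ((κ⁻¹ : ℝ) : ℂ) • (T ^ (k + 1) * G (k + 1)) x + (T ^ k * G (k + 1)) e := by
      conv_lhs => rw [hydec]
      rw [map_add, map_smul, ← hcomm' k (k + 1)]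
      rfl
    rw [h1, inner_add_left, inner_smul_left, Complex.conj_ofReal, Complex.add_re,
      Complex.re_ofReal_mul]
    have h2 : (inner ℂ ((T ^ (k + 1) * G (k + 1)) x) x).re = γ (k + 1) := by
      rw [hγ]; exact inner_re_symm (𝕜 := ℂ) _ _
    rw [h2]
    have h3 : κ⁻¹ * γ (k + 1) + (inner ℂ ((T ^ k * G (k + 1)) e) x).re - γ (k + 1) / κ =
        (inner ℂ ((T ^ k * G (k + 1)) e) x).re := by
      field_simp; ring
    rw [h3]
    calc |(inner ℂ ((T ^ k * G (k + 1)) e) x).re| ≤ ‖inner ℂ ((T ^ k * G (k + 1)) e) x‖ :=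
          Complex.abs_re_le_norm _
      _ ≤ ‖(T ^ k * G (k + 1)) e‖ * ‖x‖ := norm_inner_le_norm _ _
      _ ≤ (B * ‖e‖) * 1 := by
          gcongr
          exact ((T ^ k * G (k + 1)).le_opNorm e).trans (by gcongr; exact hB k)
      _ = B * ‖e‖ := mul_one _
  set b0 : ℝ := 1 + (1 - κ) * s + κ * B * ‖e‖ with hb0
  have hb0neg : b0 < 0 := by
    have h1 : (κ - 1) * (1 - s) ≤ (κ - 1) * (2 * q) := by
      gcongr; nlinarith
    have h2 : κ * B * ‖e‖ ≤ κ * B * (2 * q) := by gcongr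
    rw [hb0]; nlinarith
  have hy2' : ‖y‖ ^ 2 ≤ 1 := by nlinarith [norm_nonneg y]
  -- the term c = y, b = -x
  have hcb : (inner ℂ y ((T ^ 1 + star (G 1)) (-x))).re ≤ -(κ * s) - γ 1 / κ + B * ‖e‖ := by
    rw [map_neg, inner_neg_right, Complex.neg_re, add_apply, inner_add_right,
      Complex.add_re, pow_one, hyx, hadj']
    have h := abs_le.mp (herr 0)
    have h0 : (T ^ 0 * G (0 + 1)) y = G 1 y := by simp
    rw [h0] at h
    have := h.1
    simp only [zero_add] at this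
    linarith
  have hδ0 : 0 ≤ b0 - γ 1 / κ := by
    have h := hpos 1 le_rfl 0 (-x) y
    rw [map_zero, map_zero, inner_zero_right, inner_zero_right, norm_zero, norm_neg,
      Complex.zero_re] at h
    have h4 : B * ‖e‖ ≤ κ * B * ‖e‖ := by
      have h6 : 0 ≤ B * ‖e‖ := by positivity
      calc B * ‖e‖ = 1 * (B * ‖e‖) := by ring
        _ ≤ κ * (B * ‖e‖) := by gcongr; linarith
        _ = κ * B * ‖e‖ := by ring
    have h5 : ‖x‖ ^ 2 = s := rfl
    have h7 : (1 - κ) * s = s - κ * s := by ring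
    rw [h5] at h
    rw [hb0, h7]
    have h8 : (0 : ℝ) ^ 2 = 0 := by norm_num
    rw [h8] at h
    linarith
  refine recursion_false κ b0 (κ * B) γ hcon hb0neg hδ0 ?_ ?_
  · intro k hk
    set t : ℝ := 1 - 1 / κ with ht
    have htκ : t * κ = κ - 1 := by rw [ht]; field_simp
    have ht0 : 0 ≤ t := by
      have : t = (κ - 1) / κ := by rw [ht]; field_simp
      rw [this]; positivity
    set v : H := ((star T) ^ k) x with hv
    have h := hpos k hk (-(((κ - 1 : ℝ) : ℂ) • v)) (-x) y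
    have hv1 : inner ℂ x ((T ^ k) v) = ((‖v‖ ^ 2 : ℝ) : ℂ) := by
      have : inner ℂ x ((T ^ k) v) = inner ℂ ((star (T ^ k)) x) v := (hadj _ _ _).symm
      rw [this, star_pow, ← hv, inner_self_eq_norm_sq_to_K]
      push_cast; rfl
    have hg1 : (inner ℂ x ((star (G k)) v)).re = γ k := by
      rw [hadj', hv, ← star_pow, hadj', ← hmul]
      exact inner_re_symm (𝕜 := ℂ) _ _
    have hv2 : inner ℂ y ((T ^ (k + 1)) v) = ((κ * ‖v‖ ^ 2 : ℝ) : ℂ) := by
      rw [pow_succ', hmul, ← hadj, hTy, inner_smul_left, hv1,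
        Complex.conj_ofReal]
      push_cast; rfl
    have hg2 : (inner ℂ y ((star (G (k + 1))) v)).re ≥ γ (k + 1) / κ - B * ‖e‖ := by
      rw [hadj', hv, ← star_pow, hadj', ← hmul]
      have := (abs_le.mp (herr k)).1
      linarith
    have hna : ‖-(((κ - 1 : ℝ) : ℂ) • v)‖ ^ 2 = (κ - 1) ^ 2 * ‖v‖ ^ 2 := by
      rw [norm_neg, norm_smul, Complex.norm_real, Real.norm_of_nonneg hκ1.le, mul_pow]
    have hI1 : (inner ℂ (-x) ((T ^ k + star (G k)) (-(((κ - 1 : ℝ) : ℂ) • v)))).re =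
        (κ - 1) * (‖v‖ ^ 2 + γ k) := by
      rw [map_neg, inner_neg_neg, map_smul, inner_smul_right, Complex.re_ofReal_mul,
        add_apply, inner_add_right, Complex.add_re, hv1, hg1,
        Complex.ofReal_re]
    have hI2 : (inner ℂ y ((T ^ (k + 1) + star (G (k + 1))) (-(((κ - 1 : ℝ) : ℂ) • v)))).re ≤
        -((κ - 1) * (κ * ‖v‖ ^ 2 + (γ (k + 1) / κ - B * ‖e‖))) := by
      rw [map_neg, inner_neg_right, Complex.neg_re, map_smul, inner_smul_right,
        Complex.re_ofReal_mul, add_apply, inner_add_right, Complex.add_re, hv2,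
        Complex.ofReal_re]
      gcongr
    rw [hna, hI1, norm_neg] at h
    have h5 : ‖x‖ ^ 2 = s := rfl
    rw [h5] at h
    have e1 : t * (γ (k + 1) - κ * γ k) = (κ - 1) * (γ (k + 1) / κ) - (κ - 1) * γ k := by
      have : t = (κ - 1) / κ := by rw [ht]; field_simp
      rw [this]; field_simp
    rw [e1, hb0]
    have e2 : (κ - 1) * (‖v‖ ^ 2 + γ k) = (κ - 1) * ‖v‖ ^ 2 + (κ - 1) * γ k := by ring
    have e3 : -((κ - 1) * (κ * ‖v‖ ^ 2 + (γ (k + 1) / κ - B * ‖e‖))) =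
        -((κ - 1) ^ 2 * ‖v‖ ^ 2) - (κ - 1) * ‖v‖ ^ 2 - (κ - 1) * (γ (k + 1) / κ)
          + (κ * B * ‖e‖ - B * ‖e‖) := by ring
    have e4 : (1 - κ) * s = s - κ * s := by ring
    rw [e2] at h
    rw [e3] at hI2
    rw [e4]
    linarith
  · intro k
    · have h1 : |γ (k + 1)| ≤ κ * B := by
        calc |γ (k + 1)| ≤ ‖inner ℂ x ((T ^ (k + 1) * G (k + 1)) x)‖ := Complex.abs_re_le_norm _
          _ ≤ ‖x‖ * ‖(T ^ (k + 1) * G (k + 1)) x‖ := norm_inner_le_norm _ _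
          _ ≤ 1 * ((κ * B) * 1) := by
              gcongr
              refine ((T ^ (k + 1) * G (k + 1)).le_opNorm x).trans ?_
              gcongr
              rw [pow_succ', mul_assoc]
              refine (norm_mul_le _ _).trans ?_
              rw [← hκ]
              gcongr
              exact hB k
          _ = κ * B := by ring
      exact (abs_le.mp h1).1

end Pool.Agent.W753.CZ
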