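import Pool.Agent.W753.CZ.Toep

set_option autoImplicit false

open Finset Complex

namespace Pool.Agent.W753.CZ

theorem sel (L : ℂ) (F : ℕ → ℂ) (N p q : ℕ) (hpq : p ≤ q) (h : q - p < N + 1) :
    ∑ n ∈ range (N + 1), (if n + p = q then L else 0) * F n = L * F (q - p) := by
  rw [sum_eq_single (q - p)]
  · rw [if_pos (by omega)]
  · intro b _ hb
    rw [if_neg (by omega), zero_mul]
  · intro hn
    exact absurd (mem_range.mpr h) hn

theorem sel0 (L : ℂ) (F : ℕ → ℂ) (N p q : ℕ) (hpq : q < p) :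
    ∑ n ∈ range (N + 1), (if n + p = q then L else 0) * F n = 0 := by
  apply sum_eq_zero
  intro b _
  rw [if_neg (by omega), zero_mul]

variable {H : Type*} [NormedAddCommGroup H] [InnerProductSpace ℂ H]

theorem toep3 (M : ℕ → H →L[ℂ] H) (h0 : M 0 = (2 : ℂ) • 1)
    (h : ∀ (N : ℕ) (c : ℕ → ℂ) (C : ℝ),
      (∀ z : ℂ, ‖z‖ ≤ 1 → ‖∑ n ∈ range (N + 1), c n * z ^ n‖ ≤ C) →
      ‖∑ n ∈ range (N + 1), c n • M n‖ ≤ 2 * C)
    (k : ℕ) (hk : 1 ≤ k) (a b c : H) :
    0 ≤ ‖a‖ ^ 2 + ‖b‖ ^ 2 + ‖c‖ ^ 2 + (inner ℂ b (M k a)).re + (inner ℂ c (M (k + 1) a)).re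
        + (inner ℂ c (M 1 b)).re := by
  set X : ℝ := ‖a‖ ^ 2 + ‖b‖ ^ 2 + ‖c‖ ^ 2 with hX
  set y1 : ℝ := (inner ℂ b (M k a)).re with hy1
  set y2 : ℝ := (inner ℂ c (M (k + 1) a)).re with hy2
  set y3 : ℝ := (inner ℂ c (M 1 b)).re with hy3
  have hN : ∀ N : ℕ, k + 1 ≤ N → 0 ≤ 2 * ((N : ℝ) + 1) * X + 2 * ((N : ℝ) + 1 - k) * y1
      + 2 * ((N : ℝ) + 1 - (k + 1 : ℕ)) * y2 + 2 * ((N : ℝ) + 1 - (1 : ℕ)) * y3 := by
    intro N hkN
    set L : ℕ := N + k + 2 with hL
    set w : ℕ → ℂ := fun j => exp (2 * Real.pi * I / L) ^ j with hw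
    have hwn : ∀ j, ‖w j‖ = 1 := by
      intro j
      rw [hw]
      simp only [norm_pow]
      have : (2 * Real.pi * I / L : ℂ) = ((2 * Real.pi / L : ℝ) : ℂ) * I := by push_cast; ring
      rw [this, Complex.norm_exp_ofReal_mul_I, one_pow]
    set ξ : ℕ → H := fun j => a + (w j) ^ k • b + (w j) ^ (k + 1) • c with hξ
    have h1 : ∀ j, 0 ≤ (∑ n ∈ range (N + 1),
        ((dco N n : ℂ) * (w j) ^ n) * inner ℂ (ξ j) (M n (ξ j))).re := by
      intro j
      have := re_nonneg M h0 h N (fun n => (dco N n : ℂ) * (w j) ^ n) (by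
        intro z hz
        have h2 := fejer_nonneg N (w j * z) (by rw [norm_mul, hwn, one_mul]; exact hz)
        have e : ∑ n ∈ range (N + 1), (dco N n : ℂ) * (w j) ^ n * z ^ n =
            ∑ n ∈ range (N + 1), (dco N n : ℂ) * (w j * z) ^ n :=
          sum_congr rfl fun n _ => by rw [mul_pow]; ring
        rw [e]; exact h2) (ξ j)
      rw [ContinuousLinearMap.sum_apply, inner_sum] at this
      convert this using 2
      refine sum_congr rfl fun n _ => ?_
      rw [← inner_smul_right]; rfl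
    have h2 : 0 ≤ (∑ j ∈ range L, ∑ n ∈ range (N + 1),
        ((dco N n : ℂ) * (w j) ^ n) * inner ℂ (ξ j) (M n (ξ j))).re := by
      rw [re_sum]; exact sum_nonneg fun j _ => h1 j
    rw [sum_comm] at h2
    have h3 : ∀ n ∈ range (N + 1), ∑ j ∈ range L,
        ((dco N n : ℂ) * (w j) ^ n) * inner ℂ (ξ j) (M n (ξ j)) =
        (if n + 0 = 0 then (L : ℂ) else 0) * (dco N n * inner ℂ a (M n a))
        + (if n + 0 = k then (L : ℂ) else 0) * (dco N n * inner ℂ b (M n a))
        + (if n + 0 = k + 1 then (L : ℂ) else 0) * (dco N n * inner ℂ c (M n a))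
        + (if n + k = 0 then (L : ℂ) else 0) * (dco N n * inner ℂ a (M n b))
        + (if n + k = k then (L : ℂ) else 0) * (dco N n * inner ℂ b (M n b))
        + (if n + k = k + 1 then (L : ℂ) else 0) * (dco N n * inner ℂ c (M n b))
        + (if n + (k + 1) = 0 then (L : ℂ) else 0) * (dco N n * inner ℂ a (M n c))
        + (if n + (k + 1) = k then (L : ℂ) else 0) * (dco N n * inner ℂ b (M n c))
        + (if n + (k + 1) = k + 1 then (L : ℂ) else 0) * (dco N n * inner ℂ c (M n c)) := by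
      intro n hn
      have hn' := mem_range.mp hn
      have o : ∀ p q : ℕ, p < L → q < L → (if p = q then (L : ℂ) else 0) =
          ∑ j ∈ range L, (w j) ^ p * (starRingEnd ℂ) ((w j) ^ q) := fun p q hp hq =>
        (orth L p q hp hq).symm
      rw [o (n + 0) 0 (by omega) (by omega), o (n + 0) k (by omega) (by omega),
        o (n + 0) (k + 1) (by omega) (by omega), o (n + k) 0 (by omega) (by omega),
        o (n + k) k (by omega) (by omega), o (n + k) (k + 1) (by omega) (by omega),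
        o (n + (k + 1)) 0 (by omega) (by omega), o (n + (k + 1)) k (by omega) (by omega),
        o (n + (k + 1)) (k + 1) (by omega) (by omega)]
      simp only [sum_mul]
      rw [← sum_add_distrib, ← sum_add_distrib, ← sum_add_distrib, ← sum_add_distrib,
        ← sum_add_distrib, ← sum_add_distrib, ← sum_add_distrib, ← sum_add_distrib]
      refine sum_congr rfl fun j _ => ?_
      rw [hξ]
      simp only [map_add, map_smul, inner_add_left, inner_add_right, inner_smul_left,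
        inner_smul_right, add_zero, pow_zero, map_one, map_pow]
      ring
    rw [sum_congr rfl h3] at h2
    simp only [sum_add_distrib] at h2
    rw [sel _ (fun n => (dco N n : ℂ) * inner ℂ a (M n a)) N 0 0 le_rfl (by omega),
      sel _ (fun n => (dco N n : ℂ) * inner ℂ b (M n a)) N 0 k (by omega) (by omega),
      sel _ (fun n => (dco N n : ℂ) * inner ℂ c (M n a)) N 0 (k + 1) (by omega) (by omega),
      sel0 _ (fun n => (dco N n : ℂ) * inner ℂ a (M n b)) N k 0 (by omega),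
      sel _ (fun n => (dco N n : ℂ) * inner ℂ b (M n b)) N k k le_rfl (by omega),
      sel _ (fun n => (dco N n : ℂ) * inner ℂ c (M n b)) N k (k + 1) (by omega) (by omega),
      sel0 _ (fun n => (dco N n : ℂ) * inner ℂ a (M n c)) N (k + 1) 0 (by omega),
      sel0 _ (fun n => (dco N n : ℂ) * inner ℂ b (M n c)) N (k + 1) k (by omega),
      sel _ (fun n => (dco N n : ℂ) * inner ℂ c (M n c)) N (k + 1) (k + 1) le_rfl (by omega)] at h2
    have hk1 : k + 1 - k = 1 := by omega
    simp only [Nat.sub_self, Nat.sub_zero, hk1, h0] at h2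
    have hself : ∀ v : H, inner ℂ v (((2 : ℂ) • (1 : H →L[ℂ] H)) v) = ((2 * ‖v‖ ^ 2 : ℝ) : ℂ) := by
      intro v
      have : ((2 : ℂ) • (1 : H →L[ℂ] H)) v = (2 : ℂ) • v := rfl
      rw [this, inner_smul_right, inner_self_eq_norm_sq_to_K]
      push_cast; rfl
    rw [hself, hself, hself] at h2
    have hLn : ((L : ℕ) : ℂ) = ((L : ℝ) : ℂ) := by push_cast; rfl
    rw [hLn] at h2
    simp only [add_re, re_ofReal_mul, ofReal_re, zero_re, add_zero] at h2
    rw [← hy1, ← hy2, ← hy3] at h2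
    have hd0 : dco N 0 = N + 1 := by simp [dco]
    have hd1 : dco N 1 = 2 * ((N : ℝ) + 1 - (1 : ℕ)) := by simp [dco]
    have hdk : dco N k = 2 * ((N : ℝ) + 1 - k) := by unfold dco; rw [if_neg (by omega)]
    have hdk1 : dco N (k + 1) = 2 * ((N : ℝ) + 1 - (k + 1 : ℕ)) := by
      unfold dco; rw [if_neg (by omega)]
    rw [hd0, hd1, hdk, hdk1] at h2
    have hLpos : (0 : ℝ) < L := by rw [hL]; positivity
    have h5 : 0 ≤ (L : ℝ) * (2 * ((N : ℝ) + 1) * X + 2 * ((N : ℝ) + 1 - k) * y1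
      + 2 * ((N : ℝ) + 1 - (k + 1 : ℕ)) * y2 + 2 * ((N : ℝ) + 1 - (1 : ℕ)) * y3) := by
      rw [hX]
      nlinarith
    exact nonneg_of_mul_nonneg_right h5 hLpos
  -- let N → ∞
  by_contra hneg
  push Not at hneg
  set E := X + y1 + y2 + y3 with hE
  obtain ⟨N, hNN⟩ := exists_nat_gt ((|y1| * k + |y2| * (k + 1) + |y3|) / (-E) + (k + 1))
  have hN0 : k + 1 ≤ N := by
    have h1 : 0 ≤ (|y1| * k + |y2| * (k + 1) + |y3|) / (-E) := by
      apply div_nonneg (by positivity) (by linarith)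
    have : ((k + 1 : ℕ) : ℝ) < N := by push_cast; linarith
    exact_mod_cast this.le
  have h1 := hN N hN0
  have h2 : (|y1| * k + |y2| * (k + 1) + |y3|) < N * (-E) := by
    have : (|y1| * k + |y2| * (k + 1) + |y3|) / (-E) < N := by
      have : (0 : ℝ) ≤ k + 1 := by positivity
      linarith
    rwa [div_lt_iff₀ (by linarith)] at this
  have h3 : -(y1 * k) ≤ |y1| * k := by
    have := neg_abs_le y1
    have hk0 : (0 : ℝ) ≤ k := by positivity
    nlinarith
  have h4 : -(y2 * (k + 1)) ≤ |y2| * (k + 1) := by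
    have := neg_abs_le y2
    have hk0 : (0 : ℝ) ≤ k := by positivity
    nlinarith
  have h5 := neg_abs_le y3
  push_cast at h1
  have h6 : 2 * ((N : ℝ) + 1) * X + 2 * ((N : ℝ) + 1 - k) * y1
      + 2 * ((N : ℝ) + 1 - (k + 1)) * y2 + 2 * ((N : ℝ) + 1 - 1) * y3 =
      2 * ((N + 1) * E - y1 * k - y2 * (k + 1) - y3) := by rw [hE]; ring
  rw [h6] at h1
  nlinarith

end Pool.Agent.W753.CZ
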