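import Pool.Agent.W753.CZ.Mul
import Pool.Agent.W753.CZ.Core
import Pool.Agent.W753.CZ.Toep3

set_option autoImplicit false
set_option linter.unusedSectionVars false

open MeasureTheory Set Filter Topology Complex Finset

namespace Pool.Agent.W753.CZ

variable {H : Type*} [NormedAddCommGroup H] [InnerProductSpace ℂ H] [CompleteSpace H]

/-- the main bound, for a function bounded by `1` -/
theorem unital_one (T : H →L[ℂ] H) (Ω : Set ℂ) (hΩ : IsOpen Ω) (χ : ℂ → ℂ)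
    (hχ : Good T Ω χ) (α : (ℂ → ℂ) → (ℂ → ℂ))
    (hα1 : ∀ f : ℂ → ℂ, (ContinuousOn f (closure Ω) ∧ DifferentiableOn ℂ f Ω) →
        (ContinuousOn (α f) (closure Ω) ∧ DifferentiableOn ℂ (α f) Ω))
    (hα3 : Set.EqOn (α 1) 1 (closure Ω))
    (hα4 : ∀ f g : ℂ → ℂ, (ContinuousOn f (closure Ω) ∧ DifferentiableOn ℂ f Ω) →
        (ContinuousOn g (closure Ω) ∧ DifferentiableOn ℂ g Ω) →
        Set.EqOn (α (f + g)) (α f + α g) (closure Ω))
    (hα5 : ∀ (c : ℂ) (f : ℂ → ℂ), (ContinuousOn f (closure Ω) ∧ DifferentiableOn ℂ f Ω) →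
        Set.EqOn (α (c • f)) ((starRingEnd ℂ) c • α f) (closure Ω))
    (B : ℝ) (hB : 0 ≤ B) (f : ℂ → ℂ) (hf : ContinuousOn f (closure Ω) ∧ DifferentiableOn ℂ f Ω)
    (hf1 : ∀ z ∈ closure Ω, ‖f z‖ ≤ 1)
    (hα6 : ∀ n : ℕ, ∀ z ∈ closure Ω, ‖α (f ^ n) z‖ ≤ B)
    (hΦα : ∀ h : ℂ → ℂ, (ContinuousOn h (closure Ω) ∧ DifferentiableOn ℂ h Ω) →
        ∀ M : ℝ, (∀ z ∈ closure Ω, ‖h z‖ ≤ M) → ‖Phi T χ h + star (Phi T χ (α h))‖ ≤ 2 * M) :
    ‖Phi T χ f‖ ≤ 2 := by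
  have hcl : Ω ⊆ closure Ω := subset_closure
  obtain ⟨C, hC0, hC⟩ := phi_bound hΩ hχ
  have hpow : ∀ n : ℕ, ContinuousOn (f ^ n) (closure Ω) ∧ DifferentiableOn ℂ (f ^ n) Ω :=
    fun n => ⟨hf.1.pow n, hf.2.pow n⟩
  set G : ℕ → H →L[ℂ] H := fun n => Phi T χ (α (f ^ n)) with hG
  set M : ℕ → H →L[ℂ] H := fun n => (Phi T χ f) ^ n + star (G n) with hM
  have hone : Phi T χ (1 : ℂ → ℂ) = 1 := phi_one hχ.univ
  have hT : ∀ n : ℕ, Phi T χ (f ^ n) = (Phi T χ f) ^ n := by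
    intro n
    induction n with
    | zero => rw [pow_zero, pow_zero, hone]
    | succ n ih =>
      rw [pow_succ, pow_succ, ← ih]
      exact phi_mul hΩ hχ (hpow n).2 hf.2
  have hM0 : M 0 = (2 : ℂ) • 1 := by
    rw [hM, hG]
    simp only
    have : Phi T χ (α (f ^ 0)) = 1 := by
      rw [pow_zero, ← hone]
      exact phi_congr hχ (hα3.mono hcl)
    rw [this, pow_zero, star_one, two_smul]
  have hMn : ∀ n, M n = Phi T χ (f ^ n) + star (Phi T χ (α (f ^ n))) := by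
    intro n; rw [hT]
  -- linearity
  have hLadd : ∀ p q : ℂ → ℂ, (ContinuousOn p (closure Ω) ∧ DifferentiableOn ℂ p Ω) →
      (ContinuousOn q (closure Ω) ∧ DifferentiableOn ℂ q Ω) →
      Phi T χ (p + q) + star (Phi T χ (α (p + q))) =
      (Phi T χ p + star (Phi T χ (α p))) + (Phi T χ q + star (Phi T χ (α q))) := by
    intro p q hp hq
    have e1 : Phi T χ (p + q) = Phi T χ p + Phi T χ q :=
      phi_add hΩ hχ hp.2.continuousOn hq.2.continuousOn
    have e2 : Phi T χ (α (p + q)) = Phi T χ (α p) + Phi T χ (α q) := by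
      rw [phi_congr hχ ((hα4 p q hp hq).mono hcl)]
      exact phi_add hΩ hχ (hα1 p hp).2.continuousOn (hα1 q hq).2.continuousOn
    rw [e1, e2, star_add]
    abel
  have hLsmul : ∀ (c : ℂ) (p : ℂ → ℂ), (ContinuousOn p (closure Ω) ∧ DifferentiableOn ℂ p Ω) →
      Phi T χ (c • p) + star (Phi T χ (α (c • p))) = c • (Phi T χ p + star (Phi T χ (α p))) := by
    intro c p hp
    have e1 : Phi T χ (c • p) = c • Phi T χ p := phi_smul c p
    have e2 : Phi T χ (α (c • p)) = (starRingEnd ℂ) c • Phi T χ (α p) := by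
      rw [phi_congr hχ ((hα5 c p hp).mono hcl)]
      exact phi_smul _ _
    rw [e1, e2, star_smul, smul_add]
    simp
  have hsum : ∀ (N : ℕ) (c : ℕ → ℂ),
      (ContinuousOn (∑ n ∈ Finset.range (N + 1), c n • f ^ n) (closure Ω) ∧
        DifferentiableOn ℂ (∑ n ∈ Finset.range (N + 1), c n • f ^ n) Ω) ∧
      Phi T χ (∑ n ∈ Finset.range (N + 1), c n • f ^ n) +
        star (Phi T χ (α (∑ n ∈ Finset.range (N + 1), c n • f ^ n))) =
      ∑ n ∈ Finset.range (N + 1), c n • M n := by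
    intro N c
    have hs : ∀ n : ℕ, ContinuousOn (c n • f ^ n) (closure Ω) ∧ DifferentiableOn ℂ (c n • f ^ n) Ω :=
      fun n => ⟨(hpow n).1.const_smul (c n), (hpow n).2.const_smul (c n)⟩
    induction N with
    | zero =>
      simp only [zero_add, Finset.range_one, Finset.sum_singleton]
      refine ⟨hs 0, ?_⟩
      rw [hLsmul _ _ (hpow 0), hMn]
    | succ N ih =>
      rw [Finset.sum_range_succ, Finset.sum_range_succ _ (N + 1)]
      refine ⟨⟨ih.1.1.add (hs (N + 1)).1, ih.1.2.add (hs (N + 1)).2⟩, ?_⟩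
      rw [hLadd _ _ ih.1 (hs (N + 1)), ih.2, hLsmul _ _ (hpow _), hMn (N + 1)]
  have hcontr : ∀ (N : ℕ) (c : ℕ → ℂ) (K : ℝ),
      (∀ z : ℂ, ‖z‖ ≤ 1 → ‖∑ n ∈ Finset.range (N + 1), c n * z ^ n‖ ≤ K) →
      ‖∑ n ∈ Finset.range (N + 1), c n • M n‖ ≤ 2 * K := by
    intro N c K hK
    rw [← (hsum N c).2]
    apply hΦα _ (hsum N c).1
    intro z hz
    have := hK (f z) (hf1 z hz)
    simpa [Finset.sum_apply] using this
  have hpos := toep3 M hM0 hcontr
  refine core (Phi T χ f) G ?_ (C * B) ?_ ?_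
  · intro n
    have h1 : Phi T χ f * G n = Phi T χ (fun z => f z * α (f ^ n) z) :=
      (phi_mul hΩ hχ hf.2 (hα1 _ (hpow n)).2).symm
    have h2 : G n * Phi T χ f = Phi T χ (fun z => α (f ^ n) z * f z) :=
      (phi_mul hΩ hχ (hα1 _ (hpow n)).2 hf.2).symm
    rw [h1, h2]
    congr 1
    ext z
    exact mul_comm _ _
  · intro n
    have h1 : (Phi T χ f) ^ n * G (n + 1) = Phi T χ (fun z => (f ^ n) z * α (f ^ (n + 1)) z) := by
      rw [phi_mul hΩ hχ (hpow n).2 (hα1 _ (hpow (n + 1))).2, hT]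
    rw [h1]
    apply hC _ B _ _ hB
    · exact ((hpow n).2.mul (hα1 _ (hpow (n + 1))).2).continuousOn
    · intro z hz
      rw [norm_mul, Pi.pow_apply, norm_pow]
      calc ‖f z‖ ^ n * ‖α (f ^ (n + 1)) z‖ ≤ 1 * B := by
            gcongr
            · exact pow_le_one₀ (norm_nonneg _) (hf1 z (hcl hz))
            · exact hα6 (n + 1) z (hcl hz)
        _ = B := one_mul B
  · intro k hk a b c
    exact hpos k hk a b c

end Pool.Agent.W753.CZ
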