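import Pool.Agent.W753.CZ.Near
import Pool.Agent.H640R2.PhaseMuC

set_option autoImplicit false

open MeasureTheory Set Filter Topology Polynomial

namespace Pool.Agent.W753.CZ

variable {H : Type*} [NormedAddCommGroup H] [InnerProductSpace ℂ H]

/-- The numerical range `W(A)`. -/
def numRange (A : H →L[ℂ] H) : Set ℂ := {z : ℂ | ∃ x : H, ‖x‖ = 1 ∧ inner ℂ x (A x) = z}

theorem numRange_norm (A : H →L[ℂ] H) : ∀ w ∈ numRange A, ‖w‖ ≤ ‖A‖ := by
  rintro w ⟨x, hx, rfl⟩
  calc ‖inner ℂ x (A x)‖ ≤ ‖x‖ * ‖A x‖ := norm_inner_le_norm _ _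
    _ ≤ ‖x‖ * (‖A‖ * ‖x‖) := by gcongr; exact A.le_opNorm x
    _ = ‖A‖ := by rw [hx]; ring

theorem numRange_nonempty [Nontrivial H] (A : H →L[ℂ] H) : (numRange A).Nonempty := by
  obtain ⟨x, hx⟩ := exists_norm_eq H zero_le_one
  exact ⟨_, x, hx, rfl⟩

theorem supp_props {W : Set ℂ} {R : ℝ} (hW : ∀ w ∈ W, ‖w‖ ≤ R) (hne : W.Nonempty) :
    (∀ φ, |supp W φ| ≤ R) ∧ (∀ φ ψ, |supp W φ - supp W ψ| ≤ R * |φ - ψ|) ∧
      (∀ φ, supp W (φ + 2 * Real.pi) = supp W φ) ∧
      (∀ φ δ, 0 < δ → δ ≤ 1 → 2 * Real.cos δ * supp W φ ≤ supp W (φ + δ) + supp W (φ - δ)) := by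
  have hle : ∀ φ ψ, supp W φ ≤ supp W ψ + R * |φ - ψ| := by
    intro φ ψ
    apply supp_le hne
    intro w hw
    have h1 : Complex.exp (-φ * Complex.I) * w = Complex.exp (-ψ * Complex.I) * w +
        Complex.exp (-ψ * Complex.I) * (Complex.exp (Complex.I * ((ψ - φ : ℝ) : ℂ)) - 1) * w := by
      rw [mul_sub, ← Complex.exp_add]
      have : (-(ψ : ℂ) * Complex.I + Complex.I * ((ψ - φ : ℝ) : ℂ)) = -φ * Complex.I := by
        push_cast; ring
      rw [this]
      ring
    rw [h1, Complex.add_re]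
    apply add_le_add (le_supp hW ψ hw)
    refine (Complex.re_le_norm _).trans ?_
    rw [norm_mul, norm_mul, norm_exp', one_mul, mul_comm]
    have h2 := Real.norm_exp_I_mul_ofReal_sub_one_le (x := ψ - φ)
    rw [Real.norm_eq_abs, abs_sub_comm] at h2
    exact mul_le_mul (hW w hw) h2 (norm_nonneg _) ((norm_nonneg w).trans (hW w hw))
  refine ⟨?_, ?_, ?_, ?_⟩
  · intro φ
    rw [abs_le]
    constructor
    · obtain ⟨w, hw⟩ := hne
      refine le_trans ?_ (le_supp hW φ hw)
      have := Complex.abs_re_le_norm (Complex.exp (-φ * Complex.I) * w)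
      rw [norm_mul, norm_exp', one_mul] at this
      have h2 := (abs_le.mp this).1
      linarith [hW w hw]
    · apply supp_le hne
      intro w hw
      refine (Complex.re_le_norm _).trans ?_
      rw [norm_mul, norm_exp', one_mul]
      exact hW w hw
  · intro φ ψ
    rw [abs_le]
    constructor
    · have := hle ψ φ
      rw [abs_sub_comm] at this
      linarith
    · have := hle φ ψ
      linarith
  · intro φ
    unfold supp
    have : Complex.exp (-((φ + 2 * Real.pi : ℝ) : ℂ) * Complex.I) = Complex.exp (-φ * Complex.I) := by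
      have e : (-((φ + 2 * Real.pi : ℝ) : ℂ) * Complex.I) =
          -φ * Complex.I + -(2 * Real.pi * Complex.I) := by push_cast; ring
      rw [e, Complex.exp_add, Complex.exp_neg, Complex.exp_two_pi_mul_I]
      simp
    rw [this]
  · intro φ δ hδ0 hδ1
    have hcos : 0 < Real.cos δ := by
      apply Real.cos_pos_of_mem_Ioo
      constructor
      · linarith [Real.pi_pos]
      · linarith [Real.pi_gt_three]
    have h1 : supp W φ ≤ (supp W (φ + δ) + supp W (φ - δ)) / (2 * Real.cos δ) := by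
      apply supp_le hne
      intro w hw
      rw [le_div_iff₀ (by positivity)]
      have h2 := le_supp hW (φ + δ) hw
      have h3 := le_supp hW (φ - δ) hw
      have e : (Complex.exp (-φ * Complex.I) * w).re * (2 * Real.cos δ) =
          (Complex.exp (-((φ + δ : ℝ) : ℂ) * Complex.I) * w).re +
          (Complex.exp (-((φ - δ : ℝ) : ℂ) * Complex.I) * w).re := by
        rw [← Complex.add_re, ← add_mul]
        have e1 : (-((φ + δ : ℝ) : ℂ) * Complex.I) = -φ * Complex.I + ((-δ : ℝ) : ℂ) * Complex.I := by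
          push_cast; ring
        have e2 : (-((φ - δ : ℝ) : ℂ) * Complex.I) = -φ * Complex.I + ((δ : ℝ) : ℂ) * Complex.I := by
          push_cast; ring
        rw [e1, e2, Complex.exp_add, Complex.exp_add, ← mul_add]
        have e3 : Complex.exp (((-δ : ℝ) : ℂ) * Complex.I) + Complex.exp ((δ : ℂ) * Complex.I) =
            ((2 * Real.cos δ : ℝ) : ℂ) := by
          rw [Complex.exp_mul_I, Complex.exp_mul_I, ← Complex.ofReal_cos, ← Complex.ofReal_sin,
            ← Complex.ofReal_cos, ← Complex.ofReal_sin, Real.cos_neg, Real.sin_neg]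
          push_cast
          ring
        have e4 : Complex.exp (-φ * Complex.I) * ((2 * Real.cos δ : ℝ) : ℂ) * w =
            ((2 * Real.cos δ : ℝ) : ℂ) * (Complex.exp (-φ * Complex.I) * w) := by ring
        rw [e3, e4, Complex.re_ofReal_mul]
        ring
      rw [e]
      exact add_le_add h2 h3
    rw [le_div_iff₀ (by positivity)] at h1
    linarith

variable [CompleteSpace H]

/-- **Crouzeix's conjecture** (constant `2`), for bounded operators on a nonzero Hilbert space. -/
theorem crouzeix_bound [Nontrivial H] (A : H →L[ℂ] H) (p : ℂ[X]) (M : ℝ)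
    (hM : ∀ w ∈ numRange A, ‖p.eval w‖ ≤ M) : ‖aeval A p‖ ≤ 2 * M := by
  set W := numRange A with hWd
  set R := ‖A‖ with hR
  have hR0 : 0 ≤ R := norm_nonneg _
  have hW : ∀ w ∈ W, ‖w‖ ≤ R := numRange_norm A
  have hne : W.Nonempty := numRange_nonempty A
  have hconv : Convex ℝ W := H640R2.PhaseMu.toeplitz_hausdorff A
  have hM0 : 0 ≤ M := by
    obtain ⟨w, hw⟩ := hne
    exact (norm_nonneg _).trans (hM w hw)
  obtain ⟨hb, hL, hper, hcos⟩ := supp_props hW hne
  have hnum : ∀ (φ : ℝ) (u : H), (Complex.exp (-φ * Complex.I) * inner ℂ u (A u)).re ≤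
      supp W φ * ‖u‖ ^ 2 := by
    intro φ u
    by_cases hu : u = 0
    · simp [hu]
    have hn : ‖u‖ ≠ 0 := norm_ne_zero_iff.mpr hu
    set x : H := ((‖u‖⁻¹ : ℝ) : ℂ) • u with hx
    have hx1 : ‖x‖ = 1 := by
      rw [hx, norm_smul, Complex.norm_real, norm_inv, norm_norm, inv_mul_cancel₀ hn]
    have h1 := le_supp hW φ (w := inner ℂ x (A x)) ⟨x, hx1, rfl⟩
    have h2 : inner ℂ x (A x) = (((‖u‖⁻¹) ^ 2 : ℝ) : ℂ) * inner ℂ u (A u) := by
      rw [hx, map_smul, inner_smul_left, inner_smul_right, Complex.conj_ofReal]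
      push_cast
      ring
    rw [h2, mul_left_comm, Complex.re_ofReal_mul] at h1
    have h3 : 0 < ‖u‖ ^ 2 := by positivity
    calc (Complex.exp (-φ * Complex.I) * inner ℂ u (A u)).re =
        ((‖u‖⁻¹) ^ 2 * (Complex.exp (-φ * Complex.I) * inner ℂ u (A u)).re) * ‖u‖ ^ 2 := by
          field_simp
      _ ≤ supp W φ * ‖u‖ ^ 2 := by gcongr
  refine le_of_forall_pos_le_add fun ε hε => ?_
  set M' := M + ε / 2 with hM'
  have hM'0 : 0 < M' := by positivity
  have hU : IsOpen {z : ℂ | ‖p.eval z‖ < M'} := isOpen_lt (by fun_prop) continuous_const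
  have hK : IsCompact (closure W) := by
    apply Metric.isCompact_of_isClosed_isBounded isClosed_closure
    apply Bornology.IsBounded.closure
    rw [isBounded_iff_forall_norm_le]
    exact ⟨R, hW⟩
  have hsub : closure W ⊆ {z : ℂ | ‖p.eval z‖ < M'} := by
    have h1 : closure W ⊆ {z : ℂ | ‖p.eval z‖ ≤ M} :=
      closure_minimal hM (isClosed_le (by fun_prop) continuous_const)
    intro z hz
    have : ‖p.eval z‖ ≤ M := h1 hz
    show ‖p.eval z‖ < M'
    linarith
  obtain ⟨η, hη, hηs⟩ := hK.exists_cthickening_subset_open hU hsub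
  rw [Metric.cthickening_closure] at hηs
  set δ := min 1 (η / (6 * R + 1)) with hδ
  have hδ0 : 0 < δ := lt_min one_pos (by positivity)
  have hδ1 : δ ≤ 1 := min_le_left _ _
  have hδη : (6 * R + 1) * δ ≤ η := by
    have : δ ≤ η / (6 * R + 1) := min_le_right _ _
    rw [le_div_iff₀ (by positivity)] at this
    linarith
  obtain ⟨Hf, H1, H2, h1, h2, h2c, hp0, hp1, hρ, hlow, hup⟩ :=
    smooth_support (supp W) R hR0 hb hL hper hcos δ hδ0 hδ1
  have hev : ∀ φ, ‖p.eval (sg Hf H1 φ)‖ ≤ M' := by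
    intro φ
    have hnear : Metric.infDist (sg Hf H1 φ) W ≤ η := by
      apply near_convex hW hne hconv _ hη.le
      intro ψ
      have := curve_support Hf H1 H2 h1 h2 hp0 hρ φ ψ
      linarith [hup ψ]
    have hmem : sg Hf H1 φ ∈ Metric.cthickening η W := by
      rw [Metric.mem_cthickening_iff]
      rw [← ENNReal.ofReal_toReal (Metric.infEDist_ne_top hne)]
      exact ENNReal.ofReal_le_ofReal hnear
    exact (hηs hmem).le
  have := curve_bound A Hf H1 H2 h1 h2 h2c (by have := hp0 0; rwa [zero_add] at this)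
    (by have := hp1 0; rwa [zero_add] at this) hρ ((2 * R + 1) * δ) (by positivity)
    (fun φ u => by
      refine (hnum φ u).trans ?_
      gcongr
      linarith [hlow φ]) p M' hM'0 hev
  calc ‖aeval A p‖ ≤ 2 * M' := this
    _ = 2 * M + ε := by rw [hM']; ring

end Pool.Agent.W753.CZ
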