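import Pool.Agent.W753.CZ.Core
import Pool.Agent.W753.CZ.LogDer

set_option autoImplicit false

open MeasureTheory Set Filter Topology Complex

namespace Pool.Agent.W753.CZ

variable {H : Type*} [NormedAddCommGroup H] [InnerProductSpace ℂ H] [CompleteSpace H]

omit [CompleteSpace H] in
/-- pointwise sum of squares -/
theorem sos_nonneg (X : H →L[ℂ] H) (hX : ∀ u, 0 ≤ (inner ℂ u (X u)).re) (z : ℂ) (hz : ‖z‖ ≤ 1)
    (k : ℕ) (a b c : H) :
    0 ≤ (inner ℂ a (X a)).re + (inner ℂ b (X b)).re + (inner ℂ c (X c)).re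
      + ((inner ℂ b ((z ^ k • X) a)).re + (inner ℂ a ((star z ^ k • X) b)).re)
      + ((inner ℂ c ((z ^ (k + 1) • X) a)).re + (inner ℂ a ((star z ^ (k + 1) • X) c)).re)
      + ((inner ℂ c ((z ^ 1 • X) b)).re + (inner ℂ b ((star z ^ 1 • X) c)).re) := by
  have h1 := hX (c + z • b + z ^ (k + 1) • a)
  have h2 := hX (b + z ^ k • a)
  have h3 := hX a
  have hzz : z * star z = ((‖z‖ ^ 2 : ℝ) : ℂ) := by
    rw [star_def, mul_conj, normSq_eq_norm_sq]
  have hzk : (z * star z) ^ k = (((‖z‖ ^ 2) ^ k : ℝ) : ℂ) := by rw [hzz]; push_cast; ring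
  have hr1 : 0 ≤ 1 - ‖z‖ ^ 2 := by
    have : ‖z‖ ^ 2 ≤ 1 := pow_le_one₀ (norm_nonneg z) hz
    linarith
  have hr2 : 0 ≤ 1 - (‖z‖ ^ 2) ^ k := by
    have : (‖z‖ ^ 2) ^ k ≤ 1 := pow_le_one₀ (by positivity) (pow_le_one₀ (norm_nonneg z) hz)
    linarith
  have h2' : 0 ≤ ((1 - z * star z) * inner ℂ (b + z ^ k • a) (X (b + z ^ k • a))).re := by
    rw [hzz, ← ofReal_one, ← ofReal_sub, re_ofReal_mul]
    positivity
  have h3' : 0 ≤ ((1 - (z * star z) ^ k) * inner ℂ a (X a)).re := by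
    rw [hzk, ← ofReal_one, ← ofReal_sub, re_ofReal_mul]
    positivity
  have hsum := add_nonneg (add_nonneg h1 h2') h3'
  rw [← add_re, ← add_re] at hsum
  simp only [← add_re]
  have e : inner ℂ a (X a) + inner ℂ b (X b) + inner ℂ c (X c)
      + (inner ℂ b ((z ^ k • X) a) + inner ℂ a ((star z ^ k • X) b))
      + (inner ℂ c ((z ^ (k + 1) • X) a) + inner ℂ a ((star z ^ (k + 1) • X) c))
      + (inner ℂ c ((z ^ 1 • X) b) + inner ℂ b ((star z ^ 1 • X) c)) =
      inner ℂ (c + z • b + z ^ (k + 1) • a) (X (c + z • b + z ^ (k + 1) • a)) +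
        (1 - z * star z) * inner ℂ (b + z ^ k • a) (X (b + z ^ k • a)) +
        (1 - (z * star z) ^ k) * inner ℂ a (X a) := by
    simp only [map_add, map_smul, inner_add_left, inner_add_right, inner_smul_left,
      inner_smul_right, smul_apply, star_def, map_pow]
    ring
  rw [e]
  exact hsum

theorem int9 {x y : ℝ} {f1 f2 f3 f4 f5 f6 f7 f8 f9 : ℝ → ℝ}
    (h1 : IntervalIntegrable f1 volume x y) (h2 : IntervalIntegrable f2 volume x y)
    (h3 : IntervalIntegrable f3 volume x y) (h4 : IntervalIntegrable f4 volume x y)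
    (h5 : IntervalIntegrable f5 volume x y) (h6 : IntervalIntegrable f6 volume x y)
    (h7 : IntervalIntegrable f7 volume x y) (h8 : IntervalIntegrable f8 volume x y)
    (h9 : IntervalIntegrable f9 volume x y) :
    ∫ t in x..y, (f1 t + f2 t + f3 t + (f4 t + f5 t) + (f6 t + f7 t) + (f8 t + f9 t)) =
      (∫ t in x..y, f1 t) + (∫ t in x..y, f2 t) + (∫ t in x..y, f3 t)
        + ((∫ t in x..y, f4 t) + (∫ t in x..y, f5 t))
        + ((∫ t in x..y, f6 t) + (∫ t in x..y, f7 t))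
        + ((∫ t in x..y, f8 t) + (∫ t in x..y, f9 t)) := by
  rw [intervalIntegral.integral_add ((((h1.add h2).add h3).add (h4.add h5)).add (h6.add h7))
      (h8.add h9),
    intervalIntegral.integral_add (((h1.add h2).add h3).add (h4.add h5)) (h6.add h7),
    intervalIntegral.integral_add ((h1.add h2).add h3) (h4.add h5),
    intervalIntegral.integral_add (h1.add h2) h3, intervalIntegral.integral_add h1 h2,
    intervalIntegral.integral_add h4 h5, intervalIntegral.integral_add h6 h7,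
    intervalIntegral.integral_add h8 h9]

/-- the envelope curve of the support function `Hf` -/
noncomputable def sg (Hf H1 : ℝ → ℝ) (φ : ℝ) : ℂ := exp (φ * I) * ((Hf φ : ℂ) + (H1 φ : ℂ) * I)

theorem hasDerivAt_expI (φ : ℝ) : HasDerivAt (fun φ : ℝ => exp ((φ : ℂ) * I)) (I * exp (φ * I)) φ := by
  have h1 : HasDerivAt (fun φ : ℝ => (φ : ℂ) * I) (1 * I) φ :=
    ((hasDerivAt_id' φ).ofReal_comp).mul_const I
  have := h1.cexp
  refine this.congr_deriv ?_
  ring

theorem hasDerivAt_expI' (φ : ℝ) :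
    HasDerivAt (fun φ : ℝ => exp (-(φ : ℂ) * I)) (-I * exp (-φ * I)) φ := by
  have h1 : HasDerivAt (fun φ : ℝ => -(φ : ℂ) * I) (-1 * I) φ :=
    (((hasDerivAt_id' φ).ofReal_comp).neg).mul_const I
  have := h1.cexp
  refine this.congr_deriv ?_
  ring

theorem sg_deriv (Hf H1 H2 : ℝ → ℝ) (h1 : ∀ φ, HasDerivAt Hf (H1 φ) φ)
    (h2 : ∀ φ, HasDerivAt H1 (H2 φ) φ) (φ : ℝ) :
    HasDerivAt (sg Hf H1) (I * exp (φ * I) * ((Hf φ + H2 φ : ℝ) : ℂ)) φ := by
  have := (hasDerivAt_expI φ).mul ((h1 φ).ofReal_comp.add ((h2 φ).ofReal_comp.mul_const I))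
  refine this.congr_deriv ?_
  simp only [Pi.add_apply]
  push_cast
  linear_combination (exp (φ * I) * H1 φ) * I_sq

omit [CompleteSpace H] in
theorem commute_aeval {A Y : H →L[ℂ] H} (h : Commute A Y) (f : Polynomial ℂ) :
    Commute (Polynomial.aeval A f) Y := by
  induction f using Polynomial.induction_on' with
  | add p q hp hq => rw [map_add]; exact hp.add_left hq
  | monomial n a =>
    rw [Polynomial.aeval_monomial]
    exact (Algebra.commute_algebraMap_left a Y).mul_left (h.pow_left n)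

open Polynomial in
/-- The bound along an envelope curve surrounding the numerical range. -/
theorem curve_bound (A : H →L[ℂ] H) (Hf H1 H2 : ℝ → ℝ) (h1 : ∀ φ, HasDerivAt Hf (H1 φ) φ)
    (h2 : ∀ φ, HasDerivAt H1 (H2 φ) φ) (h2c : Continuous H2) (hp0 : Hf (2 * Real.pi) = Hf 0)
    (hp1 : H1 (2 * Real.pi) = H1 0) (hρ : ∀ φ, 0 ≤ Hf φ + H2 φ) (c : ℝ) (hc : 0 < c)
    (hcoer : ∀ (φ : ℝ) (u : H), (exp (-φ * I) * inner ℂ u (A u)).re ≤ (Hf φ - c) * ‖u‖ ^ 2)
    (p : ℂ[X]) (M : ℝ) (hM0 : 0 < M) (hM : ∀ φ, ‖p.eval (sg Hf H1 φ)‖ ≤ M) :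
    ‖aeval A p‖ ≤ 2 * M := by
  set π2 : ℝ := 2 * Real.pi with hπ2
  have hπ : (0 : ℝ) < π2 := by rw [hπ2]; positivity
  have hHc : Continuous Hf := continuous_iff_continuousAt.mpr fun φ => (h1 φ).continuousAt
  have hH1c : Continuous H1 := continuous_iff_continuousAt.mpr fun φ => (h2 φ).continuousAt
  set β : ℝ → ℂ := fun φ => (Hf φ : ℂ) + (H1 φ : ℂ) * I with hβ
  set B : ℝ → H →L[ℂ] H := fun φ => β φ • (1 : H →L[ℂ] H) - exp (-φ * I) • A with hB
  set B' : ℝ → H →L[ℂ] H := fun φ => ((H1 φ : ℂ) + (H2 φ : ℂ) * I) • (1 : H →L[ℂ] H)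
    - (-I * exp (-φ * I)) • A with hB'
  set ρ : ℝ → ℂ := fun φ => ((Hf φ + H2 φ : ℝ) : ℂ) with hρd
  have hder : ∀ φ, HasDerivAt B (B' φ) φ := by
    intro φ
    have e1 : HasDerivAt β ((H1 φ : ℂ) + (H2 φ : ℂ) * I) φ :=
      (h1 φ).ofReal_comp.add ((h2 φ).ofReal_comp.mul_const I)
    exact (e1.smul_const (1 : H →L[ℂ] H)).sub ((hasDerivAt_expI' φ).smul_const A)
  have hB'c : Continuous B' := by
    rw [hB']
    fun_prop
  have hBc : Continuous B := continuous_iff_continuousAt.mpr fun φ => (hder φ).continuousAt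
  have hper : B π2 = B 0 := by
    rw [hB, hβ]
    simp only
    rw [hp0, hp1]
    have : exp (-(π2 : ℂ) * I) = exp (-((0 : ℝ) : ℂ) * I) := by
      rw [hπ2]
      push_cast
      rw [neg_mul, Complex.exp_neg, Complex.exp_two_pi_mul_I]
      simp
    rw [this]
  have hreB : ∀ φ u, c * ‖u‖ ^ 2 ≤ (inner ℂ u (B φ u)).re := by
    intro φ u
    have e : (inner ℂ u (B φ u)).re = Hf φ * ‖u‖ ^ 2 - (exp (-φ * I) * inner ℂ u (A u)).re := by
      rw [hB, hβ]
      simp only [sub_apply, smul_apply, inner_sub_right, inner_smul_right, sub_re]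
      have e1 : inner ℂ u ((1 : H →L[ℂ] H) u) = ((‖u‖ ^ 2 : ℝ) : ℂ) := by
        rw [one_apply_eq_self, inner_self_eq_norm_sq_to_K]
        norm_cast
      have e2 : (((Hf φ : ℂ) + (H1 φ : ℂ) * I) * ((‖u‖ ^ 2 : ℝ) : ℂ)).re = Hf φ * ‖u‖ ^ 2 := by
        rw [mul_comm, re_ofReal_mul]
        simp
        ring
      rw [e1, e2]
    rw [e]
    have := hcoer φ u
    linarith
  have hunit : ∀ t ∈ Icc (0 : ℝ) 1, ∀ φ, IsUnit ((1 - t) • (1 : H →L[ℂ] H) + t • B φ) := by
    intro t ht φ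
    have hmin : 0 < min 1 c := lt_min one_pos hc
    apply ContinuousLinearMap.isUnit_of_forall_le_norm_inner_map _ (c := ⟨min 1 c, hmin.le⟩) hmin
    intro u
    have e0 : (inner ℂ u (((1 - t) • (1 : H →L[ℂ] H) + t • B φ) u)).re =
        (1 - t) * ‖u‖ ^ 2 + t * (inner ℂ u (B φ u)).re := by
      rw [add_apply, smul_apply, smul_apply, inner_add_right, one_apply_eq_self,
        add_re, ← Complex.coe_smul, ← Complex.coe_smul, inner_smul_right, inner_smul_right,
        re_ofReal_mul, re_ofReal_mul, inner_self_eq_norm_sq_to_K]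
      norm_cast
    have e1 : min 1 c * ‖u‖ ^ 2 ≤ (inner ℂ u (((1 - t) • (1 : H →L[ℂ] H) + t • B φ) u)).re := by
      rw [e0]
      have h3 := hreB φ u
      have h4 : min 1 c ≤ 1 := min_le_left _ _
      have h5 : min 1 c ≤ c := min_le_right _ _
      have h6 := sq_nonneg ‖u‖
      have h7 : min 1 c * ‖u‖ ^ 2 ≤ c * ‖u‖ ^ 2 := by gcongr
      have h8 : min 1 c * ‖u‖ ^ 2 ≤ 1 * ‖u‖ ^ 2 := by gcongr
      nlinarith [ht.1, ht.2]
    calc ‖u‖ ^ 2 * min 1 c = min 1 c * ‖u‖ ^ 2 := mul_comm _ _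
      _ ≤ _ := e1
      _ ≤ ‖inner ℂ u (((1 - t) • (1 : H →L[ℂ] H) + t • B φ) u)‖ := re_le_norm _
      _ = _ := norm_inner_symm _ _
  have hunitB : ∀ φ, IsUnit (B φ) := by
    intro φ
    have := hunit 1 (by simp) φ
    simpa using this
  set N : ℝ → H →L[ℂ] H := fun φ => Ring.inverse (B φ) with hN
  have hBN : ∀ φ, B φ * N φ = 1 := fun φ => Ring.mul_inverse_cancel _ (hunitB φ)
  have hNB : ∀ φ, N φ * B φ = 1 := fun φ => Ring.inverse_mul_cancel _ (hunitB φ)
  have hNc : Continuous N := by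
    rw [continuous_iff_continuousAt]
    intro φ
    obtain ⟨u, hu⟩ := hunitB φ
    have h1 : ContinuousAt Ring.inverse (B φ) := by
      have := NormedRing.inverse_continuousAt u
      rw [hu] at this
      exact this
    exact h1.comp hBc.continuousAt
  set X : ℝ → H →L[ℂ] H := fun φ => ρ φ • N φ with hX
  have hXc : Continuous X := by
    have : Continuous ρ := by rw [hρd]; fun_prop
    exact this.smul hNc
  have hXre : ∀ φ u, 0 ≤ (inner ℂ u (X φ u)).re := by
    intro φ u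
    rw [hX, hρd]
    simp only
    rw [smul_apply, inner_smul_right, re_ofReal_mul]
    apply mul_nonneg (hρ φ)
    have h3 := hreB φ (N φ u)
    have h4 : B φ (N φ u) = u := by
      have := congrArg (fun Y : H →L[ℂ] H => Y u) (hBN φ)
      simpa using this
    rw [h4] at h3
    have h5 : (inner ℂ u (N φ u)).re = (inner ℂ (N φ u) u).re := inner_re_symm (𝕜 := ℂ) _ _
    rw [h5]
    exact le_trans (by positivity) h3
  have hBB' : ∀ φ, B' φ = (I * ρ φ) • (1 : H →L[ℂ] H) - I • B φ := by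
    intro φ
    rw [hB', hB, hβ, hρd]
    simp only
    push_cast
    rw [smul_sub, smul_smul, smul_smul, sub_sub_eq_add_sub, add_comm _ ((I * exp (-φ * I)) • A),
      add_sub_assoc, ← sub_smul]
    rw [neg_mul, neg_smul, sub_neg_eq_add, add_comm]
    congr 2
    linear_combination (H1 φ : ℂ) * I_sq
  have hlog : ∫ φ in (0 : ℝ)..π2, B' φ * N φ = 0 := by
    apply logder_zero B B' 0 π2 hder hB'c hper hunit
    intro φ
    rw [hBB']
    exact (((Commute.one_left _).smul_left _)).sub_left ((Commute.refl _).smul_left _)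
  have hBN' : ∀ φ, B' φ * N φ = I • X φ - I • (1 : H →L[ℂ] H) := by
    intro φ
    rw [hBB' φ, sub_mul, smul_mul_assoc, smul_mul_assoc, one_mul, hBN, hX]
    simp only
    rw [smul_smul]
  have hXint : ∫ φ in (0 : ℝ)..π2, X φ = (π2 : ℂ) • (1 : H →L[ℂ] H) := by
    have e1 : ∫ φ in (0 : ℝ)..π2, (I • X φ - I • (1 : H →L[ℂ] H)) = 0 := by
      rw [← hlog]
      exact intervalIntegral.integral_congr fun φ _ => (hBN' φ).symm
    have hi1 : IntervalIntegrable (fun φ => I • X φ) volume 0 π2 :=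
      Continuous.intervalIntegrable (by fun_prop) _ _
    rw [intervalIntegral.integral_sub hi1
      (continuous_const.intervalIntegrable _ _), intervalIntegral.integral_smul,
      intervalIntegral.integral_const, sub_zero] at e1
    have e2 : I • (∫ φ in (0 : ℝ)..π2, X φ) = I • ((π2 : ℂ) • (1 : H →L[ℂ] H)) := by
      rw [sub_eq_zero.mp e1, smul_comm, Complex.coe_smul]
    have e3 := congrArg (fun Y => (-I) • Y) e2
    simpa [smul_smul] using e3
  set s : ℝ → ℂ := sg Hf H1 with hs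
  have hsd : ∀ φ : ℝ, HasDerivAt s (I * exp (φ * I) * ρ φ) φ := sg_deriv Hf H1 H2 h1 h2
  have hsc : Continuous s := continuous_iff_continuousAt.mpr fun φ => (hsd φ).continuousAt
  have hsper : s π2 = s 0 := by
    rw [hs]
    unfold sg
    rw [hp0, hp1, hπ2]
    push_cast
    rw [Complex.exp_two_pi_mul_I]
    simp
  have hρc : Continuous ρ := by rw [hρd]; fun_prop
  have hexpc : Continuous (fun φ : ℝ => exp ((φ : ℂ) * I)) := by fun_prop
  have hmom0 : ∀ n : ℕ, ∫ φ in (0 : ℝ)..π2, s φ ^ n * ρ φ * exp (φ * I) = 0 := by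
    intro n
    have hd : ∀ φ ∈ uIcc (0 : ℝ) π2, HasDerivAt (fun φ => -I * (s φ ^ (n + 1) / ((n : ℂ) + 1)))
        (s φ ^ n * ρ φ * exp (φ * I)) φ := by
      intro φ _
      have := (((hsd φ).pow (n + 1)).div_const ((n : ℂ) + 1)).const_mul (-I)
      refine this.congr_deriv ?_
      have hn : (n : ℂ) + 1 ≠ 0 := Nat.cast_add_one_ne_zero n
      rw [Nat.add_sub_cancel]
      push_cast
      calc -I * (((n : ℂ) + 1) * s φ ^ n * (I * exp (φ * I) * ρ φ) / ((n : ℂ) + 1)) =
            (-(I ^ 2)) * (s φ ^ n * ρ φ * exp (φ * I)) * (((n : ℂ) + 1) / ((n : ℂ) + 1)) := by ring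
        _ = _ := by rw [div_self hn, I_sq]; ring
    rw [intervalIntegral.integral_eq_sub_of_hasDerivAt hd
      (by apply Continuous.intervalIntegrable; fun_prop)]
    rw [hsper, sub_self]
  have hsN : ∀ φ, s φ • N φ = exp (φ * I) • (1 : H →L[ℂ] H) + A * N φ := by
    intro φ
    have e1 : s φ • (1 : H →L[ℂ] H) - A = exp (φ * I) • B φ := by
      rw [hB, hs]
      unfold sg
      simp only
      rw [smul_sub, smul_smul, smul_smul, ← Complex.exp_add, neg_mul, add_neg_cancel,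
        Complex.exp_zero, one_smul]
    have e2 : (s φ • (1 : H →L[ℂ] H) - A) * N φ = (exp (φ * I) • B φ) * N φ := by rw [e1]
    rw [sub_mul, smul_mul_assoc, smul_mul_assoc, one_mul, hBN] at e2
    rw [← e2]
    abel
  have hmon : ∀ n : ℕ, ∫ φ in (0 : ℝ)..π2, s φ ^ n • X φ = (π2 : ℂ) • A ^ n := by
    intro n
    induction n with
    | zero => simpa using hXint
    | succ n ih =>
      have e1 : ∀ φ, s φ ^ (n + 1) • X φ = (s φ ^ n * ρ φ * exp (φ * I)) • (1 : H →L[ℂ] H)
          + A * (s φ ^ n • X φ) := by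
        intro φ
        have : s φ ^ (n + 1) • X φ = (s φ ^ n * ρ φ) • (s φ • N φ) := by
          show s φ ^ (n + 1) • (ρ φ • N φ) = _
          rw [smul_smul, smul_smul]
          congr 1
          ring
        rw [this, hsN, smul_add, smul_smul]
        show _ = _ + A * (s φ ^ n • (ρ φ • N φ))
        rw [smul_smul, mul_smul_comm]
      rw [intervalIntegral.integral_congr (fun φ _ => e1 φ), intervalIntegral.integral_add
        (by apply Continuous.intervalIntegrable; fun_prop)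
        (by apply Continuous.intervalIntegrable; fun_prop)]
      have e2 : ∫ φ in (0 : ℝ)..π2, (s φ ^ n * ρ φ * exp (φ * I)) • (1 : H →L[ℂ] H) = 0 := by
        rw [intervalIntegral.integral_smul_const, hmom0, zero_smul]
      have e3 : ∫ φ in (0 : ℝ)..π2, A * (s φ ^ n • X φ) = A * ((π2 : ℂ) • A ^ n) := by
        rw [← ih]
        exact ContinuousLinearMap.intervalIntegral_comp_comm
          (ContinuousLinearMap.mul ℂ (H →L[ℂ] H) A)
          (by apply Continuous.intervalIntegrable; fun_prop)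
      rw [e2, e3, zero_add, mul_smul_comm, pow_succ']
  have hpoly : ∀ q : ℂ[X], ∫ φ in (0 : ℝ)..π2, q.eval (s φ) • X φ = (π2 : ℂ) • aeval A q := by
    intro q
    induction q using Polynomial.induction_on' with
    | add q r hq hr =>
      simp only [eval_add, add_smul, map_add, smul_add]
      rw [intervalIntegral.integral_add (by apply Continuous.intervalIntegrable; fun_prop)
        (by apply Continuous.intervalIntegrable; fun_prop), hq, hr]
    | monomial n a =>
      simp only [eval_monomial, aeval_monomial, mul_smul]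
      rw [intervalIntegral.integral_smul, hmon, smul_comm, Algebra.algebraMap_eq_smul_one,
        smul_mul_assoc, one_mul]
  -- the contraction
  set f : ℂ[X] := C ((M : ℂ)⁻¹) * p with hf
  set z : ℝ → ℂ := fun φ => f.eval (s φ) with hz
  have hzc : Continuous z := by rw [hz]; fun_prop
  have hz1 : ∀ φ, ‖z φ‖ ≤ 1 := by
    intro φ
    rw [hz, hf]
    simp only [eval_mul, eval_C]
    rw [norm_mul, norm_inv, Complex.norm_real, Real.norm_eq_abs, abs_of_pos hM0,
      inv_mul_le_iff₀ hM0, mul_one]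
    exact hM φ
  set T : H →L[ℂ] H := aeval A f with hT
  have hTn : ∀ n : ℕ, ∫ φ in (0 : ℝ)..π2, z φ ^ n • X φ = (π2 : ℂ) • T ^ n := by
    intro n
    have := hpoly (f ^ n)
    rw [map_pow] at this
    rw [← this]
    apply intervalIntegral.integral_congr
    intro φ _
    simp only [eval_pow]
    rfl
  have hstarc : Continuous (fun φ => star (z φ)) := hzc.star
  set G : ℕ → H →L[ℂ] H := fun n => ((π2 : ℂ)⁻¹) • ∫ φ in (0 : ℝ)..π2, star (z φ) ^ n • X φ with hG
  have hπc : (π2 : ℂ) ≠ 0 := by exact_mod_cast hπ.ne'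
  have hGn : ∀ n : ℕ, ∫ φ in (0 : ℝ)..π2, star (z φ) ^ n • X φ = (π2 : ℂ) • G n := by
    intro n
    rw [hG]
    simp only
    rw [smul_smul, mul_inv_cancel₀ hπc, one_smul]
  have hTX : ∀ φ, T * X φ = X φ * T := by
    intro φ
    have e1 : Commute A (B φ) := by
      rw [hB]
      exact ((Commute.one_right A).smul_right _).sub_right ((Commute.refl A).smul_right _)
    have e2 : Commute A (N φ) := by
      show A * N φ = N φ * A
      calc A * N φ = (N φ * B φ) * (A * N φ) := by rw [hNB, one_mul]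
        _ = N φ * (B φ * A) * N φ := by simp only [mul_assoc]
        _ = N φ * (A * B φ) * N φ := by rw [e1.eq]
        _ = N φ * A * (B φ * N φ) := by simp only [mul_assoc]
        _ = N φ * A := by rw [hBN, mul_one]
    exact (commute_aeval (e2.smul_right (ρ φ)) f).eq
  have hcomm : ∀ n, T * G n = G n * T := by
    intro n
    have i1 : IntervalIntegrable (fun φ => star (z φ) ^ n • X φ) volume 0 π2 := by
      apply Continuous.intervalIntegrable; fun_prop
    have e1 : T * (∫ φ in (0 : ℝ)..π2, star (z φ) ^ n • X φ) =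
        ∫ φ in (0 : ℝ)..π2, T * (star (z φ) ^ n • X φ) :=
      (ContinuousLinearMap.intervalIntegral_comp_comm
          (ContinuousLinearMap.mul ℂ (H →L[ℂ] H) T) i1).symm
    have e2 : (∫ φ in (0 : ℝ)..π2, star (z φ) ^ n • X φ) * T =
        ∫ φ in (0 : ℝ)..π2, (star (z φ) ^ n • X φ) * T :=
      (ContinuousLinearMap.intervalIntegral_comp_comm
          ((ContinuousLinearMap.mul ℂ (H →L[ℂ] H)).flip T) i1).symm
    rw [hG]
    simp only
    rw [mul_smul_comm, smul_mul_assoc, e1, e2]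
    congr 1
    apply intervalIntegral.integral_congr
    intro φ _
    simp only
    rw [mul_smul_comm, smul_mul_assoc, hTX]
  obtain ⟨K, hK⟩ := (isCompact_uIcc (a := (0 : ℝ)) (b := π2)).exists_bound_of_continuousOn
    hXc.continuousOn
  have hwb : ∀ w : ℝ → ℂ, (∀ φ, ‖w φ‖ ≤ 1) →
      ‖((π2 : ℂ)⁻¹) • ∫ φ in (0 : ℝ)..π2, w φ • X φ‖ ≤ K := by
    intro w hw
    rw [norm_smul, norm_inv, Complex.norm_real, Real.norm_eq_abs, abs_of_pos hπ,
      inv_mul_le_iff₀ hπ]
    have := intervalIntegral.norm_integral_le_of_norm_le_const (a := (0 : ℝ)) (b := π2)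
      (f := fun φ => w φ • X φ) (C := K) (fun φ hφ => by
        rw [norm_smul]
        calc ‖w φ‖ * ‖X φ‖ ≤ 1 * ‖X φ‖ := by gcongr; exact hw φ
          _ = ‖X φ‖ := one_mul _
          _ ≤ K := hK φ (uIoc_subset_uIcc hφ))
    rw [sub_zero, abs_of_pos hπ] at this
    linarith
  have hTb : ∀ n : ℕ, ‖T ^ n‖ ≤ K := by
    intro n
    have e : T ^ n = ((π2 : ℂ)⁻¹) • ∫ φ in (0 : ℝ)..π2, z φ ^ n • X φ := by
      rw [hTn, smul_smul, inv_mul_cancel₀ hπc, one_smul]
    rw [e]
    apply hwb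
    intro φ
    rw [norm_pow]
    exact pow_le_one₀ (norm_nonneg _) (hz1 φ)
  have hGb : ∀ n : ℕ, ‖G n‖ ≤ K := by
    intro n
    apply hwb
    intro φ
    rw [norm_pow, norm_star]
    exact pow_le_one₀ (norm_nonneg _) (hz1 φ)
  have hK0 : 0 ≤ K := (norm_nonneg _).trans (hTb 0)
  have hBd : ∀ n, ‖T ^ n * G (n + 1)‖ ≤ K * K := fun n =>
    (norm_mul_le _ _).trans (mul_le_mul (hTb n) (hGb (n + 1)) (norm_nonneg _) hK0)
  have hre : ∀ (Y : ℝ → H →L[ℂ] H), Continuous Y → ∀ v u : H,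
      ∫ φ in (0 : ℝ)..π2, (inner ℂ v (Y φ u)).re =
        (inner ℂ v ((∫ φ in (0 : ℝ)..π2, Y φ) u)).re := by
    intro Y hY v u
    have e1 := ContinuousLinearMap.intervalIntegral_comp_comm
      ((innerSL ℂ v).comp (ContinuousLinearMap.apply ℂ H u)) (f := Y) (a := (0 : ℝ)) (b := π2) (μ := volume)
      (hY.intervalIntegrable _ _)
    have hYc : Continuous (fun φ => inner ℂ v (Y φ u)) := by fun_prop
    have e2 := ContinuousLinearMap.intervalIntegral_comp_comm Complex.reCLM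
      (f := fun φ => inner ℂ v (Y φ u)) (a := (0 : ℝ)) (b := π2) (μ := volume)
      (hYc.intervalIntegrable _ _)
    have e3 : ∫ φ in (0 : ℝ)..π2, inner ℂ v (Y φ u) =
        inner ℂ v ((∫ φ in (0 : ℝ)..π2, Y φ) u) := e1
    rw [← e3]
    exact e2
  have hrec : ∀ (Y : ℝ → H →L[ℂ] H), Continuous Y → ∀ v u : H,
      IntervalIntegrable (fun φ => (inner ℂ v (Y φ u)).re) volume 0 π2 := by
    intro Y hY v u
    apply Continuous.intervalIntegrable
    have hYc : Continuous (fun φ => inner ℂ v (Y φ u)) := by fun_prop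
    exact Complex.continuous_re.comp hYc
  have hpos : ∀ k, 1 ≤ k → ∀ a b c : H,
      0 ≤ ‖a‖ ^ 2 + ‖b‖ ^ 2 + ‖c‖ ^ 2 + (inner ℂ b ((T ^ k + star (G k)) a)).re
        + (inner ℂ c ((T ^ (k + 1) + star (G (k + 1))) a)).re
        + (inner ℂ c ((T ^ 1 + star (G 1)) b)).re := by
    intro k _ a b c
    have hzk : ∀ n : ℕ, Continuous (fun φ => z φ ^ n • X φ) := fun n => by fun_prop
    have hwk : ∀ n : ℕ, Continuous (fun φ => star (z φ) ^ n • X φ) := fun n => by fun_prop
    have h0 : 0 ≤ ∫ φ in (0 : ℝ)..π2, ((inner ℂ a (X φ a)).re + (inner ℂ b (X φ b)).re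
        + (inner ℂ c (X φ c)).re
        + ((inner ℂ b ((z φ ^ k • X φ) a)).re + (inner ℂ a ((star (z φ) ^ k • X φ) b)).re)
        + ((inner ℂ c ((z φ ^ (k + 1) • X φ) a)).re
          + (inner ℂ a ((star (z φ) ^ (k + 1) • X φ) c)).re)
        + ((inner ℂ c ((z φ ^ 1 • X φ) b)).re + (inner ℂ b ((star (z φ) ^ 1 • X φ) c)).re)) :=
      intervalIntegral.integral_nonneg hπ.le
        (fun φ _ => sos_nonneg (X φ) (hXre φ) (z φ) (hz1 φ) k a b c)
    rw [int9 (hrec _ hXc a a) (hrec _ hXc b b) (hrec _ hXc c c) (hrec _ (hzk k) b a)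
      (hrec _ (hwk k) a b) (hrec _ (hzk (k + 1)) c a) (hrec _ (hwk (k + 1)) a c)
      (hrec _ (hzk 1) c b) (hrec _ (hwk 1) b c),
      hre _ hXc, hre _ hXc, hre _ hXc, hre _ (hzk k), hre _ (hwk k), hre _ (hzk (k + 1)),
      hre _ (hwk (k + 1)), hre _ (hzk 1), hre _ (hwk 1), hXint, hTn, hGn, hTn, hGn, hTn, hGn] at h0
    have hs1 : ∀ (Y : H →L[ℂ] H) (v u : H), (inner ℂ v (((π2 : ℂ) • Y) u)).re =
        π2 * (inner ℂ v (Y u)).re := by
      intro Y v u
      rw [smul_apply, inner_smul_right, re_ofReal_mul]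
    have hs2 : ∀ v : H, (inner ℂ v ((1 : H →L[ℂ] H) v)).re = ‖v‖ ^ 2 := by
      intro v
      rw [one_apply_eq_self, inner_self_eq_norm_sq_to_K]
      norm_cast
    have hs3 : ∀ (Y Z : H →L[ℂ] H) (v u : H), (inner ℂ v ((Y + star Z) u)).re =
        (inner ℂ v (Y u)).re + (inner ℂ u (Z v)).re := by
      intro Y Z v u
      rw [add_apply, inner_add_right, add_re]
      congr 1
      rw [ContinuousLinearMap.star_eq_adjoint, ContinuousLinearMap.adjoint_inner_right]
      exact inner_re_symm (𝕜 := ℂ) _ _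
    simp only [hs1, hs2] at h0
    simp only [hs3]
    have h1 : 0 ≤ π2 * (‖a‖ ^ 2 + ‖b‖ ^ 2 + ‖c‖ ^ 2 +
        ((inner ℂ b ((T ^ k) a)).re + (inner ℂ a ((G k) b)).re) +
        ((inner ℂ c ((T ^ (k + 1)) a)).re + (inner ℂ a ((G (k + 1)) c)).re) +
        ((inner ℂ c ((T ^ 1) b)).re + (inner ℂ b ((G 1) c)).re)) := by
      refine h0.trans (le_of_eq ?_)
      ring
    exact nonneg_of_mul_nonneg_right h1 hπ
  have hfin := core T G hcomm (K * K) hBd hpos
  have e : aeval A p = (M : ℂ) • T := by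
    rw [hT, hf, map_mul, aeval_C, Algebra.algebraMap_eq_smul_one, smul_mul_assoc, one_mul,
      smul_smul, mul_inv_cancel₀ (by exact_mod_cast hM0.ne'), one_smul]
  rw [e, norm_smul, Complex.norm_real, Real.norm_eq_abs, abs_of_pos hM0, mul_comm]
  gcongr

end Pool.Agent.W753.CZ
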