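import Pool.Agent.Helper366.IV.CP

set_option autoImplicit false

open MeasureTheory Set Filter Topology Complex

namespace Pool.Agent.W753.CZ

/-- the operator `∂̄` on functions `ℂ → ℂ` -/
noncomputable def dbar (χ : ℂ → ℂ) (z : ℂ) : ℂ :=
  (1 / 2 : ℂ) * (fderiv ℝ χ z 1 + Complex.I * fderiv ℝ χ z Complex.I)

theorem pompeiu (φ : ℂ → ℂ) (h : ContDiff ℝ 1 φ) (hc : HasCompactSupport φ) (z : ℂ) :
    ∫ w, dbar φ w / (z - w) = Real.pi * φ z := by
  have h1 := Pool.Agent.Helper366.IV.cauchy_pompeiu φ h hc z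
  rw [← h1, ← integral_sub_left_eq_self _ (volume : Measure ℂ) z]
  congr 1
  ext w
  rw [dbar, sub_sub_cancel]
  ring

theorem dbar_of_notMem {χ : ℂ → ℂ} {z : ℂ} (hz : z ∉ tsupport χ) : dbar χ z = 0 := by
  have h1 : χ =ᶠ[𝓝 z] fun _ => 0 := notMem_tsupport_iff_eventuallyEq.mp hz
  rw [dbar, h1.fderiv_eq]
  simp

theorem dbar_of_eqOn_one {χ : ℂ → ℂ} {U : Set ℂ} (hU : IsOpen U) (h : EqOn χ 1 U) {z : ℂ}
    (hz : z ∈ U) : dbar χ z = 0 := by
  have h1 : χ =ᶠ[𝓝 z] fun _ => 1 := h.eventuallyEq_of_mem (hU.mem_nhds hz)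
  rw [dbar, h1.fderiv_eq]
  simp

theorem dbar_continuous {χ : ℂ → ℂ} (h : ContDiff ℝ 1 χ) : Continuous (dbar χ) := by
  have h3 : Continuous (fderiv ℝ χ) := h.continuous_fderiv (by norm_num)
  unfold dbar
  have h4 : Continuous fun z => fderiv ℝ χ z 1 := h3.clm_apply continuous_const
  have h5 : Continuous fun z => fderiv ℝ χ z I := h3.clm_apply continuous_const
  fun_prop

theorem dbar_mul {f g : ℂ → ℂ} {z : ℂ} (hf : DifferentiableAt ℝ f z) (hg : DifferentiableAt ℂ g z) :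
    dbar (fun w => f w * g w) z = dbar f z * g z := by
  have hg' : HasFDerivAt g ((fderiv ℂ g z).restrictScalars ℝ) z :=
    hg.hasFDerivAt.restrictScalars ℝ
  have h1 : HasFDerivAt (fun w => f w * g w)
      (f z • ((fderiv ℂ g z).restrictScalars ℝ) + g z • fderiv ℝ f z) z :=
    hf.hasFDerivAt.mul hg'
  rw [dbar, h1.fderiv, dbar]
  have h2 : fderiv ℂ g z I = I * fderiv ℂ g z 1 := by
    have : (I : ℂ) = I • (1 : ℂ) := by simp
    conv_lhs => rw [this]
    rw [map_smul, smul_eq_mul]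
  simp only [add_apply, smul_apply, ContinuousLinearMap.coe_restrictScalars', smul_eq_mul]
  rw [h2]
  linear_combination (1 / 2 * f z * fderiv ℂ g z 1) * I_sq

/-- continuity of a function supported in a closed subset of an open set of continuity -/
theorem cont_of_on {E : Type*} [TopologicalSpace E] [Zero E] {k : ℂ → E} {V K : Set ℂ}
    (hV : IsOpen V) (hK : IsClosed K) (hKV : K ⊆ V) (hk : ContinuousOn k V)
    (h0 : ∀ z, z ∉ K → k z = 0) : Continuous k := by
  rw [continuous_iff_continuousAt]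
  intro z
  by_cases hz : z ∈ V
  · exact hk.continuousAt (hV.mem_nhds hz)
  · have hzK : z ∈ Kᶜ := fun h => hz (hKV h)
    have : k =ᶠ[𝓝 z] fun _ => 0 := by
      filter_upwards [hK.isOpen_compl.mem_nhds hzK] with w hw using h0 w hw
    exact this.continuousAt

theorem contDiff_mul {ψ f : ℂ → ℂ} {V : Set ℂ} (hV : IsOpen V) (hψ : ContDiff ℝ 1 ψ)
    (hs : tsupport ψ ⊆ V) (hf : DifferentiableOn ℂ f V) : ContDiff ℝ 1 (fun w => ψ w * f w) := by
  rw [contDiff_iff_contDiffAt]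
  intro z
  by_cases hz : z ∈ V
  · have h1 : ContDiffAt ℂ 1 f z := (hf.contDiffOn hV).contDiffAt (hV.mem_nhds hz)
    exact hψ.contDiffAt.mul (h1.restrict_scalars ℝ)
  · have h1 : z ∉ tsupport ψ := fun h => hz (hs h)
    have h2 : (fun w => ψ w * f w) =ᶠ[𝓝 z] fun _ => 0 := by
      filter_upwards [notMem_tsupport_iff_eventuallyEq.mp h1] with w hw
      rw [hw]; simp
    exact contDiffAt_const.congr_of_eventuallyEq h2

theorem dbar_mul_on {ψ f : ℂ → ℂ} {V : Set ℂ} (hV : IsOpen V) (hψ : ContDiff ℝ 1 ψ)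
    (hs : tsupport ψ ⊆ V) (hf : DifferentiableOn ℂ f V) (z : ℂ) :
    dbar (fun w => ψ w * f w) z = dbar ψ z * f z := by
  by_cases hz : z ∈ V
  · exact dbar_mul ((hψ.differentiable (by norm_num)) z) (hf.differentiableAt (hV.mem_nhds hz))
  · have h1 : z ∉ tsupport ψ := fun h => hz (hs h)
    rw [dbar_of_notMem h1, zero_mul]
    apply dbar_of_notMem
    intro h2
    exact h1 (closure_mono (Function.support_mul_subset_left ψ f) h2)

/-- Stokes: the integral of `∂̄ψ · f` vanishes (scalar case). -/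
theorem stokes_scalar {ψ f : ℂ → ℂ} {V : Set ℂ} (hV : IsOpen V) (hψ : ContDiff ℝ 1 ψ)
    (hc : HasCompactSupport ψ) (hs : tsupport ψ ⊆ V) (hf : DifferentiableOn ℂ f V) :
    ∫ z, dbar ψ z * f z = 0 := by
  have hg : DifferentiableOn ℂ (fun w => f w * (0 - w)) V := hf.mul (by fun_prop)
  have h1 := pompeiu (fun w => ψ w * (f w * (0 - w))) (contDiff_mul hV hψ hs hg)
    (hc.mul_right) 0
  rw [sub_zero, mul_zero, mul_zero, mul_zero] at h1
  rw [← h1]
  apply integral_congr_ae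
  have h0 : ∀ᵐ z : ℂ, z ≠ 0 := by
    have : volume ({0} : Set ℂ) = 0 := by simp
    exact compl_mem_ae_iff.mpr this
  filter_upwards [h0] with z hz
  rw [dbar_mul_on hV hψ hs hg]
  field_simp

variable {E : Type*} [NormedAddCommGroup E] [NormedSpace ℂ E]

/-- integrability of `∂̄ψ • F` -/
theorem integrable_dbar_smul {ψ : ℂ → ℂ} {F : ℂ → E} {V K : Set ℂ} (hV : IsOpen V)
    (hψ : ContDiff ℝ 1 ψ) (hc : HasCompactSupport ψ) (hK : IsClosed K) (hKV : K ⊆ V)
    (hK0 : ∀ z, z ∉ K → dbar ψ z = 0) (hF : ContinuousOn F V) :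
    Integrable (fun z => dbar ψ z • F z) := by
  have hcont : Continuous (fun z => dbar ψ z • F z) :=
    cont_of_on hV hK hKV ((dbar_continuous hψ).continuousOn.smul hF)
      (fun z hz => by rw [hK0 z hz, zero_smul])
  apply hcont.integrable_of_hasCompactSupport
  apply HasCompactSupport.intro hc.isCompact
  intro z hz
  rw [dbar_of_notMem hz, zero_smul]

/-- Stokes for Banach space valued holomorphic functions. -/
theorem stokes [CompleteSpace E] {ψ : ℂ → ℂ} {F : ℂ → E} {V : Set ℂ} (hV : IsOpen V) (hψ : ContDiff ℝ 1 ψ)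
    (hc : HasCompactSupport ψ) (hs : tsupport ψ ⊆ V) (hF : DifferentiableOn ℂ F V) :
    ∫ z, dbar ψ z • F z = 0 := by
  have hint : Integrable (fun z => dbar ψ z • F z) :=
    integrable_dbar_smul hV hψ hc (isClosed_tsupport ψ) hs (fun z hz => dbar_of_notMem hz)
      hF.continuousOn
  apply (SeparatingDual.eq_zero_iff_forall_dual_eq_zero (R := ℂ) _).mpr
  intro ℓ
  rw [← ℓ.integral_comp_comm hint]
  simp only [map_smul, smul_eq_mul]
  exact stokes_scalar hV hψ hc hs (ℓ.differentiable.comp_differentiableOn hF)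

end Pool.Agent.W753.CZ
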