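import Pool.Agent.W753.CZ.One

set_option autoImplicit false
set_option linter.unusedSectionVars false

open MeasureTheory Set Filter Topology Complex

namespace Pool.Agent.W753.CZ

section
variable {E : Type*} [NormedAddCommGroup E] [NormedSpace ℂ E] [CompleteSpace E]

/-- the Cauchy transform is holomorphic off the support -/
theorem cauchy_diff {k : ℂ → E} (hk : Integrable k) {K : Set ℂ} (hK : IsClosed K)
    (h0 : ∀ z, z ∉ K → k z = 0) :
    DifferentiableOn ℂ (fun w => ∫ z, (z - w)⁻¹ • k z) Kᶜ := by
  intro w₀ hw₀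
  obtain ⟨r, hr, hball⟩ := Metric.isOpen_iff.mp hK.isOpen_compl w₀ hw₀
  have hmeas : AEStronglyMeasurable k volume := hk.aestronglyMeasurable
  have hdist : ∀ w ∈ Metric.ball w₀ (r / 2), ∀ z ∈ K, r / 2 ≤ ‖z - w‖ := by
    intro w hw z hz
    have h1 : r ≤ ‖z - w₀‖ := by
      by_contra hlt
      push Not at hlt
      exact hball (show z ∈ Metric.ball w₀ r by rwa [mem_ball_iff_norm]) hz
    have h2 : ‖w - w₀‖ < r / 2 := by rwa [mem_ball_iff_norm] at hw
    have h3 : ‖z - w₀‖ ≤ ‖z - w‖ + ‖w - w₀‖ := by
      have : z - w₀ = (z - w) + (w - w₀) := by ring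
      rw [this]; exact norm_add_le _ _
    linarith
  have key := hasDerivAt_integral_of_dominated_loc_of_deriv_le (μ := (volume : Measure ℂ))
    (F := fun w z => (z - w)⁻¹ • k z) (F' := fun w z => ((z - w)⁻¹ ^ 2) • k z) (x₀ := w₀)
    (s := Metric.ball w₀ (r / 2)) (bound := fun z => (2 / r) ^ 2 * ‖k z‖)
    (Metric.ball_mem_nhds w₀ (by positivity)) ?_ ?_ ?_ ?_ ?_ ?_
  · exact key.2.differentiableAt.differentiableWithinAt
  · filter_upwards with w
    exact (by fun_prop : Measurable fun z : ℂ => (z - w)⁻¹).aestronglyMeasurable.smul hmeas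
  · apply (hk.norm.const_mul (2 / r)).mono'
    · exact (by fun_prop : Measurable fun z : ℂ => (z - w₀)⁻¹).aestronglyMeasurable.smul hmeas
    · filter_upwards with z
      by_cases hz : z ∈ K
      · rw [norm_smul, norm_inv]
        gcongr
        have := hdist w₀ (Metric.mem_ball_self (by positivity)) z hz
        rw [show 2 / r = (r / 2)⁻¹ by rw [inv_div]]
        gcongr
      · rw [h0 z hz]; simp
  · exact (by fun_prop : Measurable fun z : ℂ => (z - w₀)⁻¹ ^ 2).aestronglyMeasurable.smul hmeas
  · filter_upwards with z w hw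
    by_cases hz : z ∈ K
    · rw [norm_smul, norm_pow, norm_inv]
      gcongr
      have := hdist w hw z hz
      rw [show 2 / r = (r / 2)⁻¹ by rw [inv_div]]
      gcongr
    · rw [h0 z hz]; simp
  · exact hk.norm.const_mul _
  · filter_upwards with z w hw
    by_cases hz : z ∈ K
    · have hne : z - w ≠ 0 := by
        intro h
        have := hdist w hw z hz
        rw [h, norm_zero] at this
        linarith
      have h1 : HasDerivAt (fun w : ℂ => (z - w)⁻¹) ((z - w)⁻¹ ^ 2) w := by
        have := ((hasDerivAt_id' w).const_sub z).fun_inv hne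
        refine this.congr_deriv ?_
        rw [neg_neg, one_div, inv_pow]
      exact h1.smul_const (k z)
    · rw [h0 z hz]; simp only [smul_zero]; exact hasDerivAt_const _ _
end

variable {A : Type*} [NormedRing A] [NormedAlgebra ℂ A] [CompleteSpace A]
variable {a : A} {Ω : Set ℂ} {χ : ℂ → ℂ}

theorem Good.univ (hχ : Good a Ω χ) : Good a Set.univ χ := ⟨hχ.cd, hχ.cs, subset_univ _, hχ.ex⟩

theorem phi_add (hΩ : IsOpen Ω) (hχ : Good a Ω χ) {f g : ℂ → ℂ} (hf : ContinuousOn f Ω)
    (hg : ContinuousOn g Ω) : Phi a χ (fun z => f z + g z) = Phi a χ f + Phi a χ g := by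
  rw [phi_eq, phi_eq, phi_eq, ← smul_add,
    ← integral_add (integrable_of_on hΩ hχ (contOn_smul_res hf))
      (integrable_of_on hΩ hχ (contOn_smul_res hg))]
  congr 1
  apply integral_congr_ae
  filter_upwards with z
  rw [add_smul, smul_add]

theorem phi_smul (c : ℂ) (f : ℂ → ℂ) : Phi a χ (fun z => c * f z) = c • Phi a χ f := by
  have e : ∫ z, dbar χ z • ((c * f z) • resolvent a z) = c • ∫ z, dbar χ z • (f z • resolvent a z) := by
    rw [← integral_smul]
    apply integral_congr_ae
    filter_upwards with z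
    rw [smul_smul, smul_smul, smul_smul]
    congr 1
    ring
  rw [phi_eq, phi_eq, e, smul_comm]

/-- multiplication by `z - w` -/
theorem phi_id_mul (hΩ : IsOpen Ω) (hχ : Good a Ω χ) {h : ℂ → ℂ} (hh : DifferentiableOn ℂ h Ω)
    (w : ℂ) : Phi a χ (fun z => (z - w) * h z) = (a - algebraMap ℂ A w) * Phi a χ h := by
  rw [phi_eq, phi_eq, mul_smul_comm]
  congr 1
  have i1 : Integrable (fun z => dbar χ z • (h z • resolvent a z)) :=
    integrable_of_on hΩ hχ (contOn_smul_res hh.continuousOn)
  have i2 : Integrable (fun z => dbar χ z • (h z • (1 : A))) :=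
    integrable_of_on hΩ hχ ((hh.continuousOn.mono sdiff_subset).smul continuousOn_const)
  have e1 : ∫ z, dbar χ z • (h z • (1 : A)) = 0 :=
    stokes hΩ hχ.cd hχ.cs hχ.ts (hh.smul_const (1 : A))
  have e2 : (a - algebraMap ℂ A w) * ∫ z, dbar χ z • (h z • resolvent a z) =
      ∫ z, (a - algebraMap ℂ A w) * (dbar χ z • (h z • resolvent a z)) :=
    (integral_const_mul_of_integrable i1).symm
  rw [e2, ← sub_zero (∫ z, dbar χ z • (((z - w) * h z) • resolvent a z)), ← e1,
    ← integral_sub ?_ i2]
  · apply integral_congr_ae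
    filter_upwards with z
    by_cases hz : z ∈ spectrum ℂ a
    · obtain ⟨U, hU, hσU, hUχ⟩ := hχ.ex
      rw [dbar_of_eqOn_one hU hUχ (hσU hz)]
      simp
    · have h1 := smul_res hz
      have h2 : ((z - w) * h z) • resolvent a z - h z • (1 : A) =
          (a - algebraMap ℂ A w) * (h z • resolvent a z) := by
        rw [mul_comm, mul_smul, sub_smul, h1, mul_smul_comm, sub_mul a,
          Algebra.algebraMap_eq_smul_one, smul_mul_assoc w (1 : A), one_mul, ← smul_sub]
        congr 1
        abel
      rw [← smul_sub, h2, ← mul_smul_comm]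
  · exact integrable_of_on hΩ hχ (contOn_smul_res
      ((continuousOn_id.sub continuousOn_const).mul hh.continuousOn))

theorem phi_congr (hχ : Good a Ω χ) {f g : ℂ → ℂ} (h : EqOn f g Ω) : Phi a χ f = Phi a χ g := by
  rw [phi_eq, phi_eq]
  congr 1
  apply integral_congr_ae
  filter_upwards with z
  by_cases hz : z ∈ tsupport χ
  · rw [h (hχ.ts hz)]
  · rw [dbar_of_notMem hz, zero_smul, zero_smul]

/-- multiplicativity of the functional calculus -/
theorem phi_mul (hΩ : IsOpen Ω) (hχ : Good a Ω χ) {f g : ℂ → ℂ} (hf : DifferentiableOn ℂ f Ω)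
    (hg : DifferentiableOn ℂ g Ω) : Phi a χ (fun z => f z * g z) = Phi a χ f * Phi a χ g := by
  obtain ⟨U, hU, hσU, hUχ⟩ := hχ.ex
  have hσΩ : spectrum ℂ a ⊆ Ω := by
    intro z hz
    apply hχ.ts
    apply subset_tsupport
    rw [Function.mem_support, hUχ (hσU hz)]
    exact one_ne_zero
  have hopen : IsOpen (Ω \ spectrum ℂ a) := hΩ.sdiff (spectrum.isClosed a)
  have hfg : DifferentiableOn ℂ (fun z => f z * g z) Ω := hf.mul hg
  set D : ℂ → A := fun w => Phi a χ (fun z => dslope f w z * g z) with hD
  have hds : ∀ w ∈ Ω, DifferentiableOn ℂ (dslope f w) Ω := by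
    intro w hw
    exact (Complex.differentiableOn_dslope (hΩ.mem_nhds hw)).mpr hf
  -- the formula off the spectrum
  have hDform : ∀ w ∈ Ω \ spectrum ℂ a, D w = f w • (resolvent a w * Phi a χ g)
      - resolvent a w * Phi a χ (fun z => f z * g z) := by
    intro w hw
    have h1 : DifferentiableOn ℂ (fun z => dslope f w z * g z) Ω := (hds w hw.1).mul hg
    have h2 := phi_id_mul hΩ hχ h1 w
    have h3 : Phi a χ (fun z => (z - w) * (dslope f w z * g z)) =
        Phi a χ (fun z => f z * g z) - f w • Phi a χ g := by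
      have e : (fun z => (z - w) * (dslope f w z * g z)) =
          fun z => (fun z => f z * g z) z + (fun z => (-f w) * g z) z := by
        ext z
        have := sub_smul_dslope f w z
        rw [smul_eq_mul] at this
        simp only
        linear_combination g z * this
      rw [e, phi_add hΩ hχ (f := fun z => f z * g z) (g := fun z => (-f w) * g z)
        hfg.continuousOn (continuousOn_const.mul hg.continuousOn), phi_smul,
        neg_smul, sub_eq_add_neg]
    rw [h3] at h2
    have h4 := res_mul_left hw.2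
    calc D w = (resolvent a w * (algebraMap ℂ A w - a)) * D w := by rw [h4, one_mul]
      _ = -(resolvent a w * ((a - algebraMap ℂ A w) * D w)) := by
          rw [mul_assoc, ← mul_neg, ← neg_mul, neg_sub]
      _ = -(resolvent a w * (Phi a χ (fun z => f z * g z) - f w • Phi a χ g)) := by rw [h2]
      _ = _ := by rw [mul_sub, mul_smul_comm]; abel
  -- holomorphy of D
  have hDdiff : DifferentiableOn ℂ D Ω := by
    intro w hw
    by_cases hwσ : w ∈ spectrum ℂ a
    · -- near the spectrum
      have hwU : w ∈ U := hσU hwσ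
      have hk0 : ∀ (p : ℂ → ℂ) (z : ℂ), z ∉ Uᶜ → dbar χ z • (p z • resolvent a z) = 0 := by
        intro p z hz
        rw [notMem_compl_iff] at hz
        rw [dbar_of_eqOn_one hU hUχ hz, zero_smul]
      have i1 : Integrable (fun z => dbar χ z • ((f z * g z) • resolvent a z)) :=
        integrable_of_on hΩ hχ (contOn_smul_res hfg.continuousOn)
      have i2 : Integrable (fun z => dbar χ z • (g z • resolvent a z)) :=
        integrable_of_on hΩ hχ (contOn_smul_res hg.continuousOn)
      have d1 := cauchy_diff i1 hU.isClosed_compl (hk0 _)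
      have d2 := cauchy_diff i2 hU.isClosed_compl (hk0 _)
      rw [compl_compl] at d1 d2
      set D2 : ℂ → A := fun w => -(1 / (Real.pi : ℂ)) •
        ((∫ z, (z - w)⁻¹ • (dbar χ z • ((f z * g z) • resolvent a z))) -
          f w • ∫ z, (z - w)⁻¹ • (dbar χ z • (g z • resolvent a z))) with hD2
      have hUΩ : IsOpen (U ∩ Ω) := hU.inter hΩ
      have hEq : ∀ v ∈ U ∩ Ω, D v = D2 v := by
        intro v hv
        have hbd : ∀ (p : ℂ → ℂ), Integrable (fun z => dbar χ z • (p z • resolvent a z)) →
            Integrable (fun z => (z - v)⁻¹ • (dbar χ z • (p z • resolvent a z))) := by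
          intro p hp
          obtain ⟨r, hr, hball⟩ := Metric.isOpen_iff.mp hU v hv.1
          apply (hp.norm.const_mul (r⁻¹)).mono'
          · exact (by fun_prop : Measurable fun z : ℂ => (z - v)⁻¹).aestronglyMeasurable.smul
              hp.aestronglyMeasurable
          · filter_upwards with z
            by_cases hz : z ∈ U
            · rw [dbar_of_eqOn_one hU hUχ hz]; simp
            · rw [norm_smul, norm_inv]
              gcongr
              by_contra hlt
              push Not at hlt
              exact hz (hball (by rwa [mem_ball_iff_norm]))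
        rw [hD, hD2]
        simp only
        rw [phi_eq]
        congr 1
        have e3 : f v • ∫ z, (z - v)⁻¹ • (dbar χ z • (g z • resolvent a z)) =
            ∫ z, f v • ((z - v)⁻¹ • (dbar χ z • (g z • resolvent a z))) := (integral_smul _ _).symm
        have i4 : Integrable (fun z => f v • ((z - v)⁻¹ • (dbar χ z • (g z • resolvent a z)))) :=
          (hbd _ i2).smul (f v)
        rw [e3, ← integral_sub (hbd _ i1) i4]
        apply integral_congr_ae
        filter_upwards with z
        by_cases hz : z ∈ U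
        · rw [dbar_of_eqOn_one hU hUχ hz]; simp
        · have hne : z ≠ v := fun h => hz (h ▸ hv.1)
          rw [dslope_of_ne _ hne, slope_def_field, smul_smul, smul_smul, smul_smul, smul_smul,
            smul_smul, smul_smul, ← sub_smul]
          congr 1
          have : z - v ≠ 0 := sub_ne_zero.mpr hne
          field_simp
          try ring
      have hD2d : DifferentiableWithinAt ℂ D2 (U ∩ Ω) w := by
        have a1 := (d1 w hwU).mono (inter_subset_left : U ∩ Ω ⊆ U)
        have a2 := (d2 w hwU).mono (inter_subset_left : U ∩ Ω ⊆ U)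
        have a3 := (hf w hw).mono (inter_subset_right : U ∩ Ω ⊆ Ω)
        have a4 := (a1.sub (a3.smul a2)).const_smul (-(1 / (Real.pi : ℂ)))
        exact a4
      have h5 : DifferentiableAt ℂ D2 w := hD2d.differentiableAt (hUΩ.mem_nhds ⟨hwU, hw⟩)
      have h6 : D =ᶠ[𝓝 w] D2 := by
        filter_upwards [hUΩ.mem_nhds ⟨hwU, hw⟩] with v hv using hEq v hv
      exact (h6.differentiableAt_iff.mpr h5).differentiableWithinAt
    · have hmem : w ∈ Ω \ spectrum ℂ a := ⟨hw, hwσ⟩
      have h5 : DifferentiableAt ℂ (fun w => f w • (resolvent a w * Phi a χ g)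
          - resolvent a w * Phi a χ (fun z => f z * g z)) w := by
        have b1 : DifferentiableAt ℂ (resolvent a) w :=
          (res_diff a).differentiableAt ((spectrum.isClosed a).isOpen_compl.mem_nhds hwσ)
        have b2 : DifferentiableAt ℂ f w := hf.differentiableAt (hΩ.mem_nhds hw)
        exact (b2.smul (b1.mul_const _)).sub (b1.mul_const _)
      have h6 : D =ᶠ[𝓝 w] (fun w => f w • (resolvent a w * Phi a χ g)
          - resolvent a w * Phi a χ (fun z => f z * g z)) := by
        filter_upwards [hopen.mem_nhds hmem] with v hv using hDform v hv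
      exact (h6.differentiableAt_iff.mpr h5).differentiableWithinAt
  have hst := stokes hΩ hχ.cd hχ.cs hχ.ts hDdiff
  have i1 : Integrable (fun z => dbar χ z • (f z • resolvent a z)) :=
    integrable_of_on hΩ hχ (contOn_smul_res hf.continuousOn)
  have i2 : Integrable (fun z => dbar χ z • ((fun _ => (1 : ℂ)) z • resolvent a z)) :=
    integrable_of_on hΩ hχ (contOn_smul_res continuousOn_const)
  have e1 : ∫ z, dbar χ z • D z =
      (∫ z, dbar χ z • (f z • resolvent a z)) * Phi a χ g -
      (∫ z, dbar χ z • ((fun _ => (1 : ℂ)) z • resolvent a z)) * Phi a χ (fun z => f z * g z) := by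
    rw [← integral_mul_const_of_integrable i1, ← integral_mul_const_of_integrable i2,
      ← integral_sub (i1.mul_const _) (i2.mul_const _)]
    apply integral_congr_ae
    filter_upwards with z
    by_cases hzU : z ∈ U
    · rw [dbar_of_eqOn_one hU hUχ hzU]; simp
    by_cases hzs : z ∈ tsupport χ
    · have hm : z ∈ Ω \ spectrum ℂ a := ⟨hχ.ts hzs, fun h => hzU (hσU h)⟩
      rw [hDform z hm, smul_sub]
      simp only [smul_mul_assoc, one_smul]
    · rw [dbar_of_notMem hzs]; simp
  rw [e1] at hst
  have hone := phi_one hχ.univ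
  rw [phi_eq] at hone
  have h7 := sub_eq_zero.mp hst
  calc Phi a χ (fun z => f z * g z) = 1 * Phi a χ (fun z => f z * g z) := (one_mul _).symm
    _ = (-(1 / (Real.pi : ℂ)) • ∫ z, dbar χ z • ((fun _ => (1 : ℂ)) z • resolvent a z)) *
        Phi a χ (fun z => f z * g z) := by rw [hone]
    _ = -(1 / (Real.pi : ℂ)) • ((∫ z, dbar χ z • (f z • resolvent a z)) * Phi a χ g) := by
        rw [smul_mul_assoc, h7]
    _ = Phi a χ f * Phi a χ g := by rw [← smul_mul_assoc, ← phi_eq]

/-- boundedness of the functional calculus -/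
theorem phi_bound (hΩ : IsOpen Ω) (hχ : Good a Ω χ) : ∃ C : ℝ, 0 ≤ C ∧ ∀ (f : ℂ → ℂ) (M : ℝ),
    ContinuousOn f Ω → (∀ z ∈ Ω, ‖f z‖ ≤ M) → 0 ≤ M → ‖Phi a χ f‖ ≤ C * M := by
  have i1 : Integrable (fun z => dbar χ z • ((fun _ => (1 : ℂ)) z • resolvent a z)) :=
    integrable_of_on hΩ hχ (contOn_smul_res continuousOn_const)
  refine ⟨‖-(1 / (Real.pi : ℂ))‖ * ∫ z, ‖dbar χ z • ((fun _ => (1 : ℂ)) z • resolvent a z)‖,
    by positivity, fun f M hf hM hM0 => ?_⟩
  rw [phi_eq, norm_smul, mul_assoc]
  gcongr
  rw [mul_comm, ← integral_const_mul]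
  apply norm_integral_le_of_norm_le (i1.norm.const_mul M)
  filter_upwards with z
  by_cases hz : z ∈ tsupport χ
  · rw [smul_comm, norm_smul]
    simp only [one_smul]
    gcongr
    exact hM z (hχ.ts hz)
  · rw [dbar_of_notMem hz]; simp

end Pool.Agent.W753.CZ
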