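import Pool.Agent.W753.CZ.Smooth
import Pool.Agent.W753.CZ.Curve

set_option autoImplicit false

open MeasureTheory Set Filter Topology

namespace Pool.Agent.W753.CZ

/-- `D(ψ) ≥ 0` when `D'' + D ≥ 0`, `D(φ) = D'(φ) = 0`, `φ ≤ ψ ≤ φ + π`. -/
theorem sturm (D D1 D2 : ℝ → ℝ) (h1 : ∀ t, HasDerivAt D (D1 t) t) (h2 : ∀ t, HasDerivAt D1 (D2 t) t)
    (hρ : ∀ t, 0 ≤ D t + D2 t) (φ ψ : ℝ) (h0 : D φ = 0) (h0' : D1 φ = 0) (hψ : φ ≤ ψ)
    (hψ' : ψ ≤ φ + Real.pi) : 0 ≤ D ψ := by
  set E : ℝ → ℝ := fun t => D1 t * Real.sin (ψ - t) + D t * Real.cos (ψ - t) with hE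
  have hEd : ∀ t, HasDerivAt E ((D t + D2 t) * Real.sin (ψ - t)) t := by
    intro t
    have hs : HasDerivAt (fun t => Real.sin (ψ - t)) (-(Real.cos (ψ - t))) t := by
      have := (Real.hasDerivAt_sin (ψ - t)).comp_const_sub ψ t
      exact this
    have hco : HasDerivAt (fun t => Real.cos (ψ - t)) (Real.sin (ψ - t)) t := by
      have := (Real.hasDerivAt_cos (ψ - t)).comp_const_sub ψ t
      rw [neg_neg] at this
      exact this
    refine (((h2 t).mul hs).add ((h1 t).mul hco)).congr_deriv ?_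
    ring
  have hmono : MonotoneOn E (Icc φ ψ) := by
    apply monotoneOn_of_deriv_nonneg (convex_Icc φ ψ)
    · exact fun t _ => (hEd t).continuousAt.continuousWithinAt
    · exact fun t _ => (hEd t).differentiableAt.differentiableWithinAt
    · intro t ht
      rw [interior_Icc] at ht
      rw [(hEd t).deriv]
      apply mul_nonneg (hρ t)
      apply Real.sin_nonneg_of_nonneg_of_le_pi
      · linarith [ht.2]
      · linarith [ht.1]
  have h3 := hmono (left_mem_Icc.mpr hψ) (right_mem_Icc.mpr hψ) hψ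
  have e1 : E φ = 0 := by rw [hE]; simp [h0, h0']
  have e2 : E ψ = D ψ := by rw [hE]; simp
  rw [e1, e2] at h3
  exact h3

theorem curve_support (Hf H1 H2 : ℝ → ℝ) (h1 : ∀ φ, HasDerivAt Hf (H1 φ) φ)
    (h2 : ∀ φ, HasDerivAt H1 (H2 φ) φ) (hp : ∀ φ, Hf (φ + 2 * Real.pi) = Hf φ)
    (hρ : ∀ φ, 0 ≤ Hf φ + H2 φ) (φ ψ : ℝ) :
    (Complex.exp (-ψ * Complex.I) * sg Hf H1 φ).re ≤ Hf ψ := by
  have hval : ∀ ψ : ℝ, (Complex.exp (-ψ * Complex.I) * sg Hf H1 φ).re =
      Hf φ * Real.cos (ψ - φ) + H1 φ * Real.sin (ψ - φ) := by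
    intro ψ
    unfold sg
    rw [← mul_assoc, ← Complex.exp_add]
    have : (-(ψ : ℂ) * Complex.I + φ * Complex.I) = ((φ - ψ : ℝ) : ℂ) * Complex.I := by
      push_cast; ring
    rw [this, Complex.exp_mul_I, ← Complex.ofReal_cos, ← Complex.ofReal_sin]
    simp only [Complex.mul_re, Complex.add_re, Complex.ofReal_re, Complex.add_im,
      Complex.ofReal_im, Complex.I_re, Complex.I_im, Complex.mul_im]
    rw [show φ - ψ = -(ψ - φ) by ring, Real.cos_neg, Real.sin_neg]
    ring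
  -- forward
  have hforward : ∀ ψ, φ ≤ ψ → ψ ≤ φ + Real.pi →
      Hf φ * Real.cos (ψ - φ) + H1 φ * Real.sin (ψ - φ) ≤ Hf ψ := by
    intro ψ hψ hψ'
    have hc : ∀ t, HasDerivAt (fun t => Real.cos (t - φ)) (-(Real.sin (t - φ))) t := fun t =>
      (Real.hasDerivAt_cos (t - φ)).comp_sub_const t φ
    have hs : ∀ t, HasDerivAt (fun t => Real.sin (t - φ)) (Real.cos (t - φ)) t := fun t =>
      (Real.hasDerivAt_sin (t - φ)).comp_sub_const t φ
    have := sturm (fun t => Hf t - (Hf φ * Real.cos (t - φ) + H1 φ * Real.sin (t - φ)))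
      (fun t => H1 t - (Hf φ * (-(Real.sin (t - φ))) + H1 φ * Real.cos (t - φ)))
      (fun t => H2 t - (Hf φ * (-(Real.cos (t - φ))) + H1 φ * (-(Real.sin (t - φ)))))
      (fun t => (h1 t).sub (((hc t).const_mul _).add ((hs t).const_mul _)))
      (fun t => (h2 t).sub ((((hs t).neg).const_mul _).add ((hc t).const_mul _)))
      (fun t => by have := hρ t; nlinarith) φ ψ (by simp) (by simp) hψ hψ'
    linarith
  have hbackward : ∀ ψ, φ - Real.pi ≤ ψ → ψ ≤ φ →
      Hf φ * Real.cos (ψ - φ) + H1 φ * Real.sin (ψ - φ) ≤ Hf ψ := by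
    intro ψ hψ hψ'
    have hm1 : ∀ t, HasDerivAt (fun t => Hf (-t)) (-(H1 (-t))) t := fun t => by
      have := (h1 (-t)).scomp t (hasDerivAt_neg t)
      refine this.congr_deriv ?_
      simp
    have hm2 : ∀ t, HasDerivAt (fun t => H1 (-t)) (-(H2 (-t))) t := fun t => by
      have := (h2 (-t)).scomp t (hasDerivAt_neg t)
      refine this.congr_deriv ?_
      simp
    have hc : ∀ t, HasDerivAt (fun t => Real.cos (t + φ)) (-(Real.sin (t + φ))) t := fun t =>
      (Real.hasDerivAt_cos (t + φ)).comp_add_const t φ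
    have hs : ∀ t, HasDerivAt (fun t => Real.sin (t + φ)) (Real.cos (t + φ)) t := fun t =>
      (Real.hasDerivAt_sin (t + φ)).comp_add_const t φ
    have := sturm (fun t => Hf (-t) - (Hf φ * Real.cos (t + φ) + -(H1 φ) * Real.sin (t + φ)))
      (fun t => -(H1 (-t)) - (Hf φ * (-(Real.sin (t + φ))) + -(H1 φ) * Real.cos (t + φ)))
      (fun t => -(-(H2 (-t))) - (Hf φ * (-(Real.cos (t + φ))) + -(H1 φ) * (-(Real.sin (t + φ)))))
      (fun t => (hm1 t).sub (((hc t).const_mul _).add ((hs t).const_mul _)))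
      (fun t => ((hm2 t).neg).sub ((((hs t).neg).const_mul _).add ((hc t).const_mul _)))
      (fun t => by have := hρ (-t); nlinarith) (-φ) (-ψ) (by simp) (by simp) (by linarith)
      (by linarith)
    simp only [neg_neg] at this
    rw [show -ψ + φ = -(ψ - φ) by ring, Real.cos_neg, Real.sin_neg] at this
    linarith
  rw [hval]
  -- reduce modulo 2π
  obtain ⟨n, hn⟩ : ∃ n : ℤ, φ - Real.pi ≤ ψ + n * (2 * Real.pi) ∧ ψ + n * (2 * Real.pi) ≤ φ + Real.pi := by
    have hpi := Real.pi_pos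
    refine ⟨⌊(φ + Real.pi - ψ) / (2 * Real.pi)⌋, ?_, ?_⟩
    · have := Int.lt_floor_add_one ((φ + Real.pi - ψ) / (2 * Real.pi))
      rw [div_lt_iff₀ (by positivity)] at this
      linarith
    · have := Int.floor_le ((φ + Real.pi - ψ) / (2 * Real.pi))
      rw [le_div_iff₀ (by positivity)] at this
      linarith
  have hper : Function.Periodic Hf (2 * Real.pi) := hp
  have e1 : Hf (ψ + n * (2 * Real.pi)) = Hf ψ := hper.int_mul n ψ
  have e2 : Real.cos (ψ + n * (2 * Real.pi) - φ) = Real.cos (ψ - φ) := by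
    rw [add_sub_right_comm]; exact Real.cos_add_int_mul_two_pi _ n
  have e3 : Real.sin (ψ + n * (2 * Real.pi) - φ) = Real.sin (ψ - φ) := by
    rw [add_sub_right_comm]; exact Real.sin_add_int_mul_two_pi _ n
  rcases le_total φ (ψ + n * (2 * Real.pi)) with hle | hle
  · have := hforward _ hle hn.2
    rwa [e1, e2, e3] at this
  · have := hbackward _ hn.1 hle
    rwa [e1, e2, e3] at this

/-- support function of a set -/
noncomputable def supp (W : Set ℂ) (φ : ℝ) : ℝ :=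
  sSup ((fun w => (Complex.exp (-φ * Complex.I) * w).re) '' W)

theorem norm_exp' (φ : ℝ) : ‖Complex.exp (-φ * Complex.I)‖ = 1 := by
  have : (-(φ : ℂ) * Complex.I) = ((-φ : ℝ) : ℂ) * Complex.I := by push_cast; ring
  rw [this, Complex.norm_exp_ofReal_mul_I]

theorem supp_bdd {W : Set ℂ} {R : ℝ} (hW : ∀ w ∈ W, ‖w‖ ≤ R) (φ : ℝ) :
    BddAbove ((fun w => (Complex.exp (-φ * Complex.I) * w).re) '' W) := by
  refine ⟨R, ?_⟩
  rintro _ ⟨w, hw, rfl⟩
  refine (Complex.re_le_norm _).trans ?_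
  rw [norm_mul, norm_exp', one_mul]
  exact hW w hw

theorem le_supp {W : Set ℂ} {R : ℝ} (hW : ∀ w ∈ W, ‖w‖ ≤ R) (φ : ℝ) {w : ℂ} (hw : w ∈ W) :
    (Complex.exp (-φ * Complex.I) * w).re ≤ supp W φ :=
  le_csSup (supp_bdd hW φ) ⟨w, hw, rfl⟩

theorem supp_le {W : Set ℂ} (hne : W.Nonempty) (φ : ℝ) {v : ℝ}
    (h : ∀ w ∈ W, (Complex.exp (-φ * Complex.I) * w).re ≤ v) : supp W φ ≤ v := by
  apply csSup_le (hne.image _)
  rintro _ ⟨w, hw, rfl⟩
  exact h w hw

theorem near_convex {W : Set ℂ} {R : ℝ} (hW : ∀ w ∈ W, ‖w‖ ≤ R) (hne : W.Nonempty)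
    (hconv : Convex ℝ W) {z : ℂ} {η : ℝ} (hz : ∀ ψ : ℝ, (Complex.exp (-ψ * Complex.I) * z).re ≤ supp W ψ + η)
    (hη : 0 ≤ η) : Metric.infDist z W ≤ η := by
  obtain ⟨v, hv, hmin⟩ := exists_norm_eq_iInf_of_complete_convex (F := ℂ) hne.closure
    isClosed_closure.isComplete hconv.closure z
  rw [norm_eq_iInf_iff_real_inner_le_zero hconv.closure hv] at hmin
  have hd : Metric.infDist z W ≤ ‖z - v‖ := by
    rw [← Metric.infDist_closure, ← dist_eq_norm]
    exact Metric.infDist_le_dist_of_mem hv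
  refine hd.trans ?_
  by_cases h0 : z - v = 0
  · rw [h0, norm_zero]; exact hη
  have hpos : 0 < ‖z - v‖ := norm_pos_iff.mpr h0
  set d := z - v with hdd
  set ψ := Complex.arg d with hψ
  have he : Complex.exp (-ψ * Complex.I) = (starRingEnd ℂ) d / ‖d‖ := by
    have h1 : (‖d‖ : ℂ) * Complex.exp (ψ * Complex.I) = d := Complex.norm_mul_exp_arg_mul_I d
    have h2 : (starRingEnd ℂ) d = (‖d‖ : ℂ) * Complex.exp (-ψ * Complex.I) := by
      conv_lhs => rw [← h1]
      rw [map_mul, Complex.conj_ofReal, ← Complex.exp_conj, map_mul, Complex.conj_I,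
        Complex.conj_ofReal]
      ring_nf
    rw [h2]
    have : (‖d‖ : ℂ) ≠ 0 := by exact_mod_cast hpos.ne'
    field_simp
  have hre : ∀ w : ℂ, (Complex.exp (-ψ * Complex.I) * w).re = ((starRingEnd ℂ) d * w).re / ‖d‖ := by
    intro w
    rw [he, div_mul_eq_mul_div, Complex.div_ofReal_re]
  have h1 : supp W ψ ≤ (Complex.exp (-ψ * Complex.I) * v).re := by
    apply supp_le hne
    intro w hw
    have h2 := hmin w (subset_closure hw)
    rw [Complex.inner, mul_comm] at h2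
    rw [hre, hre]
    apply div_le_div_of_nonneg_right _ hpos.le
    have h3 : ((starRingEnd ℂ) d * (w - v)).re =
        ((starRingEnd ℂ) d * w).re - ((starRingEnd ℂ) d * v).re := by
      rw [mul_sub, Complex.sub_re]
    linarith
  have h2 := hz ψ
  have h3 : (Complex.exp (-ψ * Complex.I) * z).re =
      (Complex.exp (-ψ * Complex.I) * v).re + ‖d‖ := by
    have : z = v + d := by rw [hdd]; ring
    rw [this, mul_add, Complex.add_re, hre d]
    congr 1
    rw [mul_comm, Complex.mul_conj, Complex.ofReal_re, Complex.normSq_eq_norm_sq]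
    field_simp
  linarith

end Pool.Agent.W753.CZ
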