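import Pool.Agent.W753.CZ.Res

set_option autoImplicit false
set_option linter.unusedSectionVars false

open MeasureTheory Set Filter Topology Complex

namespace Pool.Agent.W753.CZ

variable {A : Type*} [NormedRing A] [NormedAlgebra ℂ A] [CompleteSpace A]

/-- a fixed bump -/
noncomputable def bmp : ContDiffBump (0 : ℂ) := ⟨1, 2, one_pos, one_lt_two⟩

noncomputable def chi0 (z : ℂ) : ℂ := ((bmp z : ℝ) : ℂ)

theorem chi0_cd : ContDiff ℝ 1 chi0 := ofRealCLM.contDiff.comp bmp.contDiff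

theorem chi0_one {z : ℂ} (hz : ‖z‖ < 1) : chi0 z = 1 := by
  unfold chi0
  rw [bmp.one_of_mem_closedBall]
  · simp
  · rw [mem_closedBall_zero_iff]; exact hz.le

theorem chi0_zero {z : ℂ} (hz : 2 ≤ ‖z‖) : chi0 z = 0 := by
  unfold chi0
  rw [bmp.zero_of_le_dist]
  · simp
  · rw [dist_zero_right]; exact hz

theorem chi0_cs : HasCompactSupport chi0 := by
  apply HasCompactSupport.intro (isCompact_closedBall (0 : ℂ) 2)
  intro z hz
  rw [mem_closedBall_zero_iff, not_le] at hz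
  exact chi0_zero hz.le

noncomputable def chiR (ρ : ℝ) (z : ℂ) : ℂ := chi0 ((ρ : ℂ)⁻¹ * z)

theorem chiR_cd (ρ : ℝ) : ContDiff ℝ 1 (chiR ρ) :=
  chi0_cd.comp (contDiff_const.mul contDiff_id)

theorem chiR_cs {ρ : ℝ} (hρ : 0 < ρ) : HasCompactSupport (chiR ρ) := by
  apply HasCompactSupport.intro (isCompact_closedBall (0 : ℂ) (2 * ρ))
  intro z hz
  rw [mem_closedBall_zero_iff, not_le] at hz
  apply chi0_zero
  rw [norm_mul, norm_inv, norm_real, Real.norm_of_nonneg hρ.le]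
  rw [le_inv_mul_iff₀ hρ]; linarith

theorem chiR_one {ρ : ℝ} (hρ : 0 < ρ) : EqOn (chiR ρ) 1 (Metric.ball 0 ρ) := by
  intro z hz
  rw [mem_ball_zero_iff] at hz
  apply chi0_one
  rw [norm_mul, norm_inv, norm_real, Real.norm_of_nonneg hρ.le, inv_mul_lt_iff₀ hρ]
  linarith

theorem chiR_dbar {ρ : ℝ} (z : ℂ) : dbar (chiR ρ) z = (ρ : ℂ)⁻¹ * dbar chi0 ((ρ : ℂ)⁻¹ * z) := by
  have h1 : HasFDerivAt (fun z : ℂ => (ρ : ℂ)⁻¹ * z) ((ρ⁻¹ : ℝ) • ContinuousLinearMap.id ℝ ℂ) z := by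
    have := (ContinuousLinearMap.hasFDerivAt ((ρ⁻¹ : ℝ) • ContinuousLinearMap.id ℝ ℂ) (x := z))
    convert this using 1
    ext w
    simp
  have h2 := ((chi0_cd.differentiable (by norm_num)) ((ρ : ℂ)⁻¹ * z)).hasFDerivAt.comp z h1
  have h3 : fderiv ℝ (chiR ρ) z = (fderiv ℝ chi0 ((ρ : ℂ)⁻¹ * z)).comp ((ρ⁻¹ : ℝ) • ContinuousLinearMap.id ℝ ℂ) :=
    h2.fderiv
  rw [dbar, h3, dbar]
  have h4 : ∀ v : ℂ, (fderiv ℝ chi0 ((ρ : ℂ)⁻¹ * z)).comp ((ρ⁻¹ : ℝ) • ContinuousLinearMap.id ℝ ℂ) v =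
      (ρ : ℂ)⁻¹ * (fderiv ℝ chi0 ((ρ : ℂ)⁻¹ * z)) v := by
    intro v
    have : (fderiv ℝ chi0 ((ρ : ℂ)⁻¹ * z)).comp ((ρ⁻¹ : ℝ) • ContinuousLinearMap.id ℝ ℂ) v =
      (fderiv ℝ chi0 ((ρ : ℂ)⁻¹ * z)) (ρ⁻¹ • v) := rfl
    rw [this, map_smul, real_smul, ofReal_inv]
  rw [h4, h4]
  ring

theorem chiR_good {a : A} {ρ : ℝ} (hρ : 0 < ρ) (h : spectrum ℂ a ⊆ Metric.ball 0 ρ) :
    Good a univ (chiR ρ) where
  cd := chiR_cd ρ
  cs := chiR_cs hρ
  ts := subset_univ _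
  ex := ⟨Metric.ball 0 ρ, Metric.isOpen_ball, h, chiR_one hρ⟩

theorem phi_one {a : A} {χ : ℂ → ℂ} (hχ : Good a univ χ) : Phi a χ (fun _ => 1) = 1 := by
  -- decay of the resolvent
  obtain ⟨C, hC⟩ := (spectrum.resolvent_isBigO_inv (𝕜 := ℂ) a).bound
  have hev : ∀ᶠ z in Bornology.cobounded ℂ, ‖resolvent a z - z⁻¹ • (1 : A)‖ ≤ ‖a‖ * |C| * ‖z‖⁻¹ ^ 2 := by
    have h1 : ∀ᶠ z in Bornology.cobounded ℂ, ‖a‖ * ‖(1 : A)‖ + 1 ≤ ‖z‖ :=
      (tendsto_norm_cobounded_atTop).eventually_ge_atTop _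
    filter_upwards [hC, h1] with z hz h1
    have h2 : z ∉ spectrum ℂ a := by
      intro h
      have := spectrum.norm_le_norm_mul_of_mem h
      linarith
    have hz0 : z ≠ 0 := by
      intro h
      rw [h, norm_zero] at h1
      have : 0 ≤ ‖a‖ * ‖(1 : A)‖ := by positivity
      linarith
    have h3 := smul_res h2
    have h4 : resolvent a z - z⁻¹ • (1 : A) = z⁻¹ • (a * resolvent a z) := by
      calc resolvent a z - z⁻¹ • (1 : A) = z⁻¹ • (z • resolvent a z) - z⁻¹ • (1 : A) := by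
            rw [smul_smul, inv_mul_cancel₀ hz0, one_smul]
        _ = z⁻¹ • (1 + a * resolvent a z) - z⁻¹ • (1 : A) := by rw [h3]
        _ = z⁻¹ • (a * resolvent a z) := by rw [smul_add, add_sub_cancel_left]
    rw [h4, norm_smul, norm_inv]
    calc ‖z‖⁻¹ * ‖a * resolvent a z‖ ≤ ‖z‖⁻¹ * (‖a‖ * (|C| * ‖z‖⁻¹)) := by
          gcongr
          refine (norm_mul_le _ _).trans ?_
          gcongr
          refine hz.trans ?_
          rw [norm_inv]
          gcongr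
          exact le_abs_self C
      _ = ‖a‖ * |C| * ‖z‖⁻¹ ^ 2 := by ring
  rw [atTop_basis_Ioi.cobounded_of_norm.eventually_iff] at hev
  obtain ⟨r₀, -, hr₀⟩ := hev
  -- bound for dbar chi0
  obtain ⟨C1, hC1⟩ : ∃ C1 : ℝ, ∀ u, ‖dbar chi0 u‖ ≤ C1 := by
    have hc : HasCompactSupport (dbar chi0) := by
      apply HasCompactSupport.intro chi0_cs.isCompact
      intro z hz
      exact dbar_of_notMem hz
    exact hc.exists_bound_of_continuous (dbar_continuous chi0_cd)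
  have hC10 : 0 ≤ C1 := (norm_nonneg _).trans (hC1 0)
  set K : ℝ := 4 * C1 * (‖a‖ * |C|) with hK_def
  have hK0 : 0 ≤ K := by positivity
  have hmain : ∀ ρ : ℝ, max (max r₀ (‖a‖ * ‖(1 : A)‖)) 0 < ρ → ‖Phi a χ (fun _ => 1) - 1‖ ≤ K / ρ := by
    intro ρ hρ
    have hρ0 : 0 < ρ := (le_max_right _ _).trans_lt hρ
    have hρ1 : r₀ < ρ := ((le_max_left _ _).trans (le_max_left _ _)).trans_lt hρ
    have hρ2 : ‖a‖ * ‖(1 : A)‖ < ρ := ((le_max_right _ _).trans (le_max_left _ _)).trans_lt hρ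
    have hsp : spectrum ℂ a ⊆ Metric.ball 0 ρ := by
      intro z hz
      rw [mem_ball_zero_iff]
      exact (spectrum.norm_le_norm_mul_of_mem hz).trans_lt hρ2
    have hgood : Good a univ (chiR ρ) := chiR_good hρ0 hsp
    rw [phi_cutoff isOpen_univ hχ hgood (differentiable_const (1 : ℂ)).differentiableOn, phi_eq]
    have hP := pompeiu (chiR ρ) (chiR_cd ρ) (chiR_cs hρ0) 0
    have hP1 : chiR ρ 0 = 1 := chiR_one hρ0 (Metric.mem_ball_self hρ0)
    rw [hP1, mul_one] at hP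
    have hvan1 : ∀ z, z ∉ (Metric.ball (0 : ℂ) ρ)ᶜ → dbar (chiR ρ) z = 0 := by
      intro z hz
      rw [notMem_compl_iff] at hz
      exact dbar_of_eqOn_one Metric.isOpen_ball (chiR_one hρ0) hz
    have hvan2 : ∀ z, z ∉ Metric.closedBall (0 : ℂ) (2 * ρ) → dbar (chiR ρ) z = 0 := by
      intro z hz
      apply dbar_of_notMem
      intro h1
      apply hz
      have : tsupport (chiR ρ) ⊆ Metric.closedBall (0 : ℂ) (2 * ρ) := by
        apply closure_minimal _ Metric.isClosed_closedBall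
        intro w hw
        by_contra h2
        apply hw
        rw [mem_closedBall_zero_iff, not_le] at h2
        apply chi0_zero
        rw [norm_mul, norm_inv, norm_real, Real.norm_of_nonneg hρ0.le, le_inv_mul_iff₀ hρ0]
        linarith
      exact this h1
    have hK : IsClosed (Metric.ball (0 : ℂ) ρ)ᶜ := Metric.isOpen_ball.isClosed_compl
    have i1 : Integrable (fun z => dbar (chiR ρ) z • ((fun _ => (1 : ℂ)) z • resolvent a z)) :=
      integrable_of_on isOpen_univ hgood (contOn_smul_res continuousOn_const)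
    have i2 : Integrable (fun z => dbar (chiR ρ) z • (z⁻¹ • (1 : A))) := by
      refine integrable_dbar_smul (V := {0}ᶜ) isOpen_compl_singleton (chiR_cd ρ) (chiR_cs hρ0) hK ?_
        hvan1 ?_
      · intro z hz h0
        rw [mem_singleton_iff] at h0
        rw [h0] at hz
        exact hz (Metric.mem_ball_self hρ0)
      · exact (continuousOn_inv₀).smul continuousOn_const
    have e1 : ∫ z, dbar (chiR ρ) z • (z⁻¹ • (1 : A)) = -(Real.pi : ℂ) • (1 : A) := by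
      rw [← hP]
      have : ∀ z, dbar (chiR ρ) z • (z⁻¹ • (1 : A)) = (-(dbar (chiR ρ) z / (0 - z))) • (1 : A) := by
        intro z
        rw [smul_smul]
        congr 1
        rw [zero_sub, div_neg, neg_neg, div_eq_mul_inv]
      simp_rw [this]
      rw [integral_smul_const, integral_neg]
    have e2 : -(1 / (Real.pi : ℂ)) • (∫ z, dbar (chiR ρ) z • ((fun _ => (1 : ℂ)) z • resolvent a z)) - 1 =
        -(1 / (Real.pi : ℂ)) • ∫ z, dbar (chiR ρ) z • (resolvent a z - z⁻¹ • (1 : A)) := by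
      have e3 : ∀ z, dbar (chiR ρ) z • (resolvent a z - z⁻¹ • (1 : A)) =
          dbar (chiR ρ) z • ((fun _ => (1 : ℂ)) z • resolvent a z) - dbar (chiR ρ) z • (z⁻¹ • (1 : A)) := by
        intro z; rw [smul_sub, one_smul]
      simp_rw [e3]
      rw [integral_sub i1 i2, e1, smul_sub, smul_smul]
      have : -(1 / (Real.pi : ℂ)) * -(Real.pi : ℂ) = 1 := by
        have : (Real.pi : ℂ) ≠ 0 := by exact_mod_cast Real.pi_ne_zero
        field_simp
      rw [this, one_smul]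
    rw [e2, norm_smul, norm_neg, norm_div, norm_one, norm_real, Real.norm_of_nonneg Real.pi_pos.le]
    have e4 : ∫ z, dbar (chiR ρ) z • (resolvent a z - z⁻¹ • (1 : A)) =
        ∫ z in Metric.closedBall (0 : ℂ) (2 * ρ), dbar (chiR ρ) z • (resolvent a z - z⁻¹ • (1 : A)) := by
      rw [setIntegral_eq_integral_of_forall_compl_eq_zero]
      intro z hz
      rw [hvan2 z hz, zero_smul]
    have hvol : volume.real (Metric.closedBall (0 : ℂ) (2 * ρ)) = (2 * ρ) ^ 2 * Real.pi := by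
      rw [Measure.real, Complex.volume_closedBall]
      rw [ENNReal.toReal_mul, ENNReal.toReal_pow, ENNReal.toReal_ofReal (by positivity)]
      rfl
    have e5 : ‖∫ z in Metric.closedBall (0 : ℂ) (2 * ρ), dbar (chiR ρ) z • (resolvent a z - z⁻¹ • (1 : A))‖ ≤
        (C1 / ρ * (‖a‖ * |C| * ρ⁻¹ ^ 2)) * volume.real (Metric.closedBall (0 : ℂ) (2 * ρ)) := by
      apply norm_setIntegral_le_of_norm_le_const
      · rw [Complex.volume_closedBall]
        exact ENNReal.mul_lt_top (ENNReal.pow_lt_top ENNReal.ofReal_lt_top) (by simp)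
      · intro z _
        by_cases hz : z ∈ (Metric.ball (0 : ℂ) ρ)ᶜ
        · rw [mem_compl_iff, mem_ball_zero_iff, not_lt] at hz
          rw [norm_smul]
          have h1 := hr₀ (show ‖z‖ ∈ Ioi r₀ from lt_of_lt_of_le hρ1 hz)
          have h2 : ‖dbar (chiR ρ) z‖ ≤ C1 / ρ := by
            rw [chiR_dbar, norm_mul, norm_inv, norm_real, Real.norm_of_nonneg hρ0.le, div_eq_inv_mul]
            gcongr
            exact hC1 _
          have h3 : ‖z‖⁻¹ ≤ ρ⁻¹ := by gcongr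
          calc ‖dbar (chiR ρ) z‖ * ‖resolvent a z - z⁻¹ • (1 : A)‖ ≤
                C1 / ρ * (‖a‖ * |C| * ‖z‖⁻¹ ^ 2) := by gcongr
            _ ≤ C1 / ρ * (‖a‖ * |C| * ρ⁻¹ ^ 2) := by gcongr
        · rw [hvan1 z hz, zero_smul, norm_zero]
          positivity
    rw [e4]
    rw [hvol] at e5
    calc 1 / Real.pi * ‖∫ z in Metric.closedBall (0 : ℂ) (2 * ρ), dbar (chiR ρ) z • (resolvent a z - z⁻¹ • (1 : A))‖
        ≤ 1 / Real.pi * ((C1 / ρ * (‖a‖ * |C| * ρ⁻¹ ^ 2)) * ((2 * ρ) ^ 2 * Real.pi)) := by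
          gcongr
      _ = K / ρ := by
          rw [hK_def]
          have := Real.pi_pos.ne'
          field_simp
          ring
  by_contra hne
  have hpos : 0 < ‖Phi a χ (fun _ => 1) - 1‖ := norm_pos_iff.mpr (sub_ne_zero.mpr hne)
  set δ := ‖Phi a χ (fun _ => 1) - 1‖ with hδ
  set ρ : ℝ := max (max r₀ (‖a‖ * ‖(1 : A)‖)) 0 + (K + 1) / δ with hρ
  have hρ1 : max (max r₀ (‖a‖ * ‖(1 : A)‖)) 0 < ρ := by
    rw [hρ]
    have : 0 < (K + 1) / δ := by positivity
    linarith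
  have hρ0 : 0 < ρ := (le_max_right _ _).trans_lt hρ1
  have h1 := hmain ρ hρ1
  have h2 : (K + 1) / δ ≤ ρ := by
    rw [hρ]
    have := le_max_right (max r₀ (‖a‖ * ‖(1 : A)‖)) 0
    linarith
  rw [le_div_iff₀ hρ0] at h1
  rw [div_le_iff₀ hpos] at h2
  linarith

end Pool.Agent.W753.CZ
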