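import Pool.Agent.W753.CZ.FC

set_option autoImplicit false

open MeasureTheory Set Filter Topology Complex

namespace Pool.Agent.W753.CZ

variable {A : Type*} [NormedRing A] [NormedAlgebra ℂ A] [CompleteSpace A]

theorem res_mul_right {a : A} {z : ℂ} (hz : z ∉ spectrum ℂ a) :
    (algebraMap ℂ A z - a) * resolvent a z = 1 := by
  rw [spectrum.notMem_iff] at hz
  exact Ring.mul_inverse_cancel _ hz

theorem res_mul_left {a : A} {z : ℂ} (hz : z ∉ spectrum ℂ a) :
    resolvent a z * (algebraMap ℂ A z - a) = 1 := by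
  rw [spectrum.notMem_iff] at hz
  exact Ring.inverse_mul_cancel _ hz

theorem res_diff (a : A) : DifferentiableOn ℂ (resolvent a) (spectrum ℂ a)ᶜ := by
  intro z hz
  have hz' : z ∈ resolventSet ℂ a := by
    simpa [spectrum] using hz
  exact (spectrum.hasDerivAt_resolvent hz').differentiableAt.differentiableWithinAt

theorem smul_res {a : A} {z : ℂ} (hz : z ∉ spectrum ℂ a) :
    z • resolvent a z = 1 + a * resolvent a z := by
  have h := res_mul_right hz
  rw [sub_mul, Algebra.algebraMap_eq_smul_one, smul_mul_assoc, one_mul] at h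
  rw [← h]; abel

/-- a good cut-off -/
structure Good (a : A) (Ω : Set ℂ) (χ : ℂ → ℂ) : Prop where
  cd : ContDiff ℝ 1 χ
  cs : HasCompactSupport χ
  ts : tsupport χ ⊆ Ω
  ex : ∃ U : Set ℂ, IsOpen U ∧ spectrum ℂ a ⊆ U ∧ EqOn χ 1 U

/-- the functional calculus -/
noncomputable def Phi (a : A) (χ : ℂ → ℂ) (f : ℂ → ℂ) : A :=
  -(1 / (Real.pi : ℂ)) • ∫ z : ℂ, (f z * dbar χ z) • resolvent a z

variable {a : A} {Ω : Set ℂ} {χ : ℂ → ℂ}

theorem integrable_of_on (hΩ : IsOpen Ω) (hχ : Good a Ω χ) {F : ℂ → A}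
    (hF : ContinuousOn F (Ω \ spectrum ℂ a)) : Integrable (fun z => dbar χ z • F z) := by
  obtain ⟨U, hU, hσU, hUχ⟩ := hχ.ex
  refine integrable_dbar_smul (V := Ω \ spectrum ℂ a) (K := tsupport χ \ U)
    (hΩ.sdiff (spectrum.isClosed a)) hχ.cd hχ.cs ((isClosed_tsupport χ).sdiff hU) ?_ ?_ hF
  · intro z hz
    exact ⟨hχ.ts hz.1, fun h => hz.2 (hσU h)⟩
  · intro z hz
    by_cases h1 : z ∈ tsupport χ
    · have h2 : z ∈ U := by
        by_contra h2
        exact hz ⟨h1, h2⟩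
      exact dbar_of_eqOn_one hU hUχ h2
    · exact dbar_of_notMem h1

theorem phi_eq (a : A) (χ f : ℂ → ℂ) :
    Phi a χ f = -(1 / (Real.pi : ℂ)) • ∫ z : ℂ, dbar χ z • (f z • resolvent a z) := by
  rw [Phi]
  congr 2
  ext z
  rw [smul_smul, mul_comm]

theorem contOn_smul_res {f : ℂ → ℂ} (hf : ContinuousOn f Ω) :
    ContinuousOn (fun z => f z • resolvent a z) (Ω \ spectrum ℂ a) :=
  (hf.mono diff_subset).smul ((res_diff a).continuousOn.mono fun _ hz => hz.2)

theorem diffOn_smul_res {f : ℂ → ℂ} (hf : DifferentiableOn ℂ f Ω) :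
    DifferentiableOn ℂ (fun z => f z • resolvent a z) (Ω \ spectrum ℂ a) :=
  (hf.mono diff_subset).smul ((res_diff a).mono fun _ hz => hz.2)

theorem dbar_sub {f g : ℂ → ℂ} (hf : ContDiff ℝ 1 f) (hg : ContDiff ℝ 1 g) (z : ℂ) :
    dbar (fun w => f w - g w) z = dbar f z - dbar g z := by
  have h1 := ((hf.differentiable (by norm_num)) z).hasFDerivAt.sub
    ((hg.differentiable (by norm_num)) z).hasFDerivAt
  have h2 : fderiv ℝ (fun w => f w - g w) z = fderiv ℝ f z - fderiv ℝ g z := h1.fderiv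
  rw [dbar, h2, dbar, dbar]
  simp only [sub_apply]
  ring

/-- independence of the cut-off -/
theorem phi_cutoff (hΩ : IsOpen Ω) {χ₂ : ℂ → ℂ} (h1 : Good a Ω χ) (h2 : Good a Ω χ₂)
    {f : ℂ → ℂ} (hf : DifferentiableOn ℂ f Ω) : Phi a χ f = Phi a χ₂ f := by
  rw [phi_eq, phi_eq]
  congr 1
  rw [← sub_eq_zero, ← integral_sub
    (integrable_of_on hΩ h1 (contOn_smul_res hf.continuousOn))
    (integrable_of_on hΩ h2 (contOn_smul_res hf.continuousOn))]
  obtain ⟨U1, hU1, hσU1, hUχ1⟩ := h1.ex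
  obtain ⟨U2, hU2, hσU2, hUχ2⟩ := h2.ex
  have key := stokes (V := Ω \ spectrum ℂ a) (ψ := fun w => χ w - χ₂ w)
    (F := fun z => f z • resolvent a z) (hΩ.sdiff (spectrum.isClosed a))
    (h1.cd.sub h2.cd) (h1.cs.sub h2.cs) ?_ (diffOn_smul_res hf)
  · rw [← key]
    congr 1
    ext z
    rw [dbar_sub h1.cd h2.cd, sub_smul]
  · intro z hz
    have hsub : tsupport (fun w => χ w - χ₂ w) ⊆ (tsupport χ ∪ tsupport χ₂) \ (U1 ∩ U2) := by
      have hcl : IsClosed ((tsupport χ ∪ tsupport χ₂) \ (U1 ∩ U2)) :=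
        ((isClosed_tsupport χ).union (isClosed_tsupport χ₂)).sdiff (hU1.inter hU2)
      apply closure_minimal _ hcl
      intro w hw
      rw [Function.mem_support] at hw
      refine ⟨?_, ?_⟩
      · by_contra hn
        rw [mem_union, not_or] at hn
        apply hw
        rw [image_eq_zero_of_notMem_tsupport hn.1, image_eq_zero_of_notMem_tsupport hn.2, sub_zero]
      · rintro ⟨m1, m2⟩
        apply hw
        rw [hUχ1 m1, hUχ2 m2]; simp
    obtain ⟨h3, h4⟩ := hsub hz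
    refine ⟨?_, fun h => h4 ⟨hσU1 h, hσU2 h⟩⟩
    rcases h3 with h | h
    · exact h1.ts h
    · exact h2.ts h

end Pool.Agent.W753.CZ
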