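import Mathlib

set_option autoImplicit false

open MeasureTheory Set Filter Topology

namespace Pool.Agent.W753.CZ

/-- one-sided average -/
noncomputable def avg (δ : ℝ) (h : ℝ → ℝ) (φ : ℝ) : ℝ := δ⁻¹ * ∫ t in φ..(φ + δ), h t

theorem avg_hasDerivAt {δ : ℝ} {h : ℝ → ℝ} (hc : Continuous h) (φ : ℝ) :
    HasDerivAt (avg δ h) (δ⁻¹ * (h (φ + δ) - h φ)) φ := by
  have e : avg δ h = fun φ => δ⁻¹ * ((∫ t in (0 : ℝ)..(φ + δ), h t) - ∫ t in (0 : ℝ)..φ, h t) := by
    funext φ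
    unfold avg
    rw [intervalIntegral.integral_interval_sub_left (hc.intervalIntegrable _ _)
      (hc.intervalIntegrable _ _)]
  rw [e]
  have h1 : HasDerivAt (fun x => ∫ t in (0 : ℝ)..x, h t) (h (φ + δ)) (φ + δ) :=
    intervalIntegral.integral_hasDerivAt_right (hc.intervalIntegrable _ _)
      hc.stronglyMeasurable.stronglyMeasurableAtFilter hc.continuousAt
  have h2 : HasDerivAt (fun x => ∫ t in (0 : ℝ)..x, h t) (h φ) φ :=
    intervalIntegral.integral_hasDerivAt_right (hc.intervalIntegrable _ _)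
      hc.stronglyMeasurable.stronglyMeasurableAtFilter hc.continuousAt
  have h3 : HasDerivAt (fun x => ∫ t in (0 : ℝ)..(x + δ), h t) (h (φ + δ)) φ := by
    have := h1.comp_add_const φ δ
    exact this
  exact (h3.sub h2).const_mul _

theorem avg_continuous {δ : ℝ} {h : ℝ → ℝ} (hc : Continuous h) : Continuous (avg δ h) :=
  continuous_iff_continuousAt.mpr fun φ => (avg_hasDerivAt hc φ).continuousAt

theorem avg_periodic {δ : ℝ} {h : ℝ → ℝ} {c : ℝ} (hp : ∀ φ, h (φ + c) = h φ) (φ : ℝ) :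
    avg δ h (φ + c) = avg δ h φ := by
  unfold avg
  congr 1
  rw [add_right_comm, ← intervalIntegral.integral_comp_add_right]
  exact intervalIntegral.integral_congr fun t _ => hp t

theorem avg_near {δ : ℝ} (hδ : 0 < δ) {h : ℝ → ℝ} (hc : Continuous h) {φ v C : ℝ}
    (hC : ∀ t ∈ Icc φ (φ + δ), |h t - v| ≤ C) : |avg δ h φ - v| ≤ C := by
  have e : avg δ h φ - v = δ⁻¹ * ∫ t in φ..(φ + δ), (h t - v) := by
    rw [intervalIntegral.integral_sub (hc.intervalIntegrable _ _)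
      (continuous_const.intervalIntegrable _ _), intervalIntegral.integral_const, avg]
    simp only [add_sub_cancel_left, smul_eq_mul]
    field_simp
  rw [e, abs_mul, abs_inv, abs_of_pos hδ, inv_mul_le_iff₀ hδ]
  have := intervalIntegral.norm_integral_le_of_norm_le_const (a := φ) (b := φ + δ)
    (f := fun t => h t - v) (C := C) (fun t ht => by
      rw [Real.norm_eq_abs]
      apply hC
      rw [uIoc_of_le (by linarith)] at ht
      exact ⟨ht.1.le, ht.2⟩)
  rw [Real.norm_eq_abs, add_sub_cancel_left, abs_of_pos hδ] at this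
  linarith

theorem smooth_support (h : ℝ → ℝ) (R : ℝ) (hR : 0 ≤ R) (hb : ∀ φ, |h φ| ≤ R)
    (hL : ∀ φ ψ, |h φ - h ψ| ≤ R * |φ - ψ|) (hper : ∀ φ, h (φ + 2 * Real.pi) = h φ)
    (hcos : ∀ φ δ, 0 < δ → δ ≤ 1 → 2 * Real.cos δ * h φ ≤ h (φ + δ) + h (φ - δ))
    (δ : ℝ) (hδ0 : 0 < δ) (hδ1 : δ ≤ 1) :
    ∃ Hf H1 H2 : ℝ → ℝ, (∀ φ, HasDerivAt Hf (H1 φ) φ) ∧ (∀ φ, HasDerivAt H1 (H2 φ) φ) ∧
      Continuous H2 ∧ (∀ φ, Hf (φ + 2 * Real.pi) = Hf φ) ∧ (∀ φ, H1 (φ + 2 * Real.pi) = H1 φ) ∧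
      (∀ φ, 0 ≤ Hf φ + H2 φ) ∧ (∀ φ, h φ + (2 * R + 1) * δ ≤ Hf φ) ∧
      (∀ φ, Hf φ ≤ h φ + (6 * R + 1) * δ) := by
  have hc : Continuous h := by
    have : LipschitzWith ⟨R, hR⟩ h := LipschitzWith.of_dist_le_mul fun x y => by
      rw [Real.dist_eq, Real.dist_eq]; exact hL x y
    exact this.continuous
  have hc1 : Continuous (avg δ h) := avg_continuous hc
  set k : ℝ → ℝ := avg δ (avg δ h) with hk
  have hn1 : ∀ t, |avg δ h t - h t| ≤ R * δ := by
    intro t
    apply avg_near hδ0 hc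
    intro s hs
    refine (hL s t).trans ?_
    gcongr
    rw [abs_of_nonneg (by linarith [hs.1])]
    linarith [hs.2]
  have hn2 : ∀ φ, |k φ - h φ| ≤ 2 * R * δ := by
    intro φ
    apply avg_near hδ0 hc1
    intro t ht
    have h1 := hn1 t
    have h2 : |h t - h φ| ≤ R * δ := by
      refine (hL t φ).trans ?_
      gcongr
      rw [abs_of_nonneg (by linarith [ht.1])]
      linarith [ht.2]
    calc |avg δ h t - h φ| = |(avg δ h t - h t) + (h t - h φ)| := by ring_nf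
      _ ≤ |avg δ h t - h t| + |h t - h φ| := abs_add_le _ _
      _ ≤ 2 * R * δ := by linarith
  refine ⟨fun φ => k φ + (4 * R + 1) * δ, fun φ => δ⁻¹ * (avg δ h (φ + δ) - avg δ h φ),
    fun φ => δ⁻¹ * (δ⁻¹ * (h (φ + δ + δ) - h (φ + δ)) - δ⁻¹ * (h (φ + δ) - h φ)), ?_, ?_, ?_, ?_,
    ?_, ?_, ?_, ?_⟩
  · intro φ
    exact (avg_hasDerivAt hc1 φ).add_const _
  · intro φ
    have h1 := (avg_hasDerivAt (δ := δ) hc (φ + δ)).comp_add_const φ δ
    exact (h1.sub (avg_hasDerivAt hc φ)).const_mul _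
  · fun_prop
  · intro φ
    have : k (φ + 2 * Real.pi) = k φ := avg_periodic (fun ψ => avg_periodic hper ψ) φ
    simp only [this]
  · intro φ
    have h1 : avg δ h (φ + 2 * Real.pi) = avg δ h φ := avg_periodic hper φ
    have h2 : avg δ h (φ + 2 * Real.pi + δ) = avg δ h (φ + δ) := by
      rw [add_right_comm]; exact avg_periodic hper (φ + δ)
    simp only [h1, h2]
  · intro φ
    have h1 := hcos (φ + δ) δ hδ0 hδ1
    rw [add_sub_cancel_right] at h1
    have h2 := hn2 φ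
    have h3 : |h (φ + δ) - h φ| ≤ R * δ := by
      refine (hL _ _).trans ?_
      rw [add_sub_cancel_left, abs_of_pos hδ0]
    have h4 := hb (φ + δ)
    have h5 := Real.cos_bound (x := δ) (by rw [abs_of_pos hδ0]; exact hδ1)
    rw [abs_of_pos hδ0] at h5
    have h2' := abs_le.mp h2
    have h3' := abs_le.mp h3
    have h4' := abs_le.mp h4
    have h5' := abs_le.mp h5
    -- δ^2 * (second difference quotient)
    have e1 : δ⁻¹ * (δ⁻¹ * (h (φ + δ + δ) - h (φ + δ)) - δ⁻¹ * (h (φ + δ) - h φ)) =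
        (h (φ + δ + δ) + h φ - 2 * h (φ + δ)) / δ ^ 2 := by
      field_simp
      ring
    have h6 : -(h (φ + δ)) - R * δ ≤ (h (φ + δ + δ) + h φ - 2 * h (φ + δ)) / δ ^ 2 := by
      rw [le_div_iff₀ (by positivity)]
      have h7 : 2 * (Real.cos δ - 1) * h (φ + δ) ≤ h (φ + δ + δ) + h φ - 2 * h (φ + δ) := by
        linarith
      refine le_trans ?_ h7
      have h8 : |2 * (Real.cos δ - (1 - δ ^ 2 / 2)) * h (φ + δ)| ≤ 2 * (δ ^ 4 * (5 / 96)) * R := by
        rw [abs_mul, abs_mul, abs_two]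
        gcongr
      have h9 := (abs_le.mp h8).1
      have h10 : 2 * (δ ^ 4 * (5 / 96)) * R ≤ R * δ * δ ^ 2 := by
        have : δ ^ 4 ≤ δ ^ 3 := pow_le_pow_of_le_one hδ0.le hδ1 (by norm_num)
        nlinarith [mul_le_mul_of_nonneg_left this hR, mul_nonneg hR (pow_pos hδ0 4).le,
          mul_nonneg hR (pow_pos hδ0 3).le]
      nlinarith
    simp only
    rw [e1]
    nlinarith
  · intro φ
    have h2' := abs_le.mp (hn2 φ)
    simp only
    nlinarith
  · intro φ
    have h2' := abs_le.mp (hn2 φ)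
    simp only
    nlinarith

end Pool.Agent.W753.CZ
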