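import Mathlib

set_option autoImplicit false

open Finset Complex

namespace Pool.Agent.W753.CZ

/-- coefficients of `(N+1)` times the Fejér kernel (analytic part) -/
noncomputable def dco (N n : ℕ) : ℝ := if n = 0 then (N + 1 : ℝ) else 2 * ((N : ℝ) + 1 - n)

theorem fejer_nonneg (N : ℕ) (z : ℂ) (hz : ‖z‖ ≤ 1) :
    0 ≤ (∑ n ∈ range (N + 1), (dco N n : ℂ) * z ^ n).re := by
  -- closed form
  have key : ∀ N : ℕ, (∑ n ∈ range (N + 1), (dco N n : ℂ) * z ^ n).re =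
      ‖∑ i ∈ range (N + 1), z ^ i‖ ^ 2 + (1 - ‖z‖ ^ 2) * ∑ j ∈ range N, ‖∑ i ∈ range (j + 1), z ^ i‖ ^ 2 := by
    intro N
    induction N with
    | zero => simp [dco]
    | succ N ih =>
      have h1 : (∑ n ∈ range (N + 1 + 1), (dco (N + 1) n : ℂ) * z ^ n).re =
          (∑ n ∈ range (N + 1), (dco N n : ℂ) * z ^ n).re +
            (2 * (∑ i ∈ range (N + 1 + 1), z ^ i).re - 1) := by
        have e1 : ∑ n ∈ range (N + 1 + 1), (dco (N + 1) n : ℂ) * z ^ n =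
            ∑ n ∈ range (N + 1 + 1), (dco N n : ℂ) * z ^ n +
              (2 * (∑ i ∈ range (N + 1 + 1), z ^ i) - 1) := by
          have e2 : (2 * (∑ i ∈ range (N + 1 + 1), z ^ i) - 1 : ℂ) =
              ∑ i ∈ range (N + 1 + 1), (if i = 0 then (1 : ℂ) else 2) * z ^ i := by
            rw [sum_range_succ' _ (N + 1), sum_range_succ' _ (N + 1), mul_add, mul_sum]
            simp
            ring
          rw [e2, ← sum_add_distrib]
          refine sum_congr rfl fun n _ => ?_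
          rw [← add_mul]
          congr 1
          unfold dco
          split_ifs
          · push_cast; ring
          · push_cast; ring
        have e3 : ∑ n ∈ range (N + 1 + 1), (dco N n : ℂ) * z ^ n =
            ∑ n ∈ range (N + 1), (dco N n : ℂ) * z ^ n := by
          rw [sum_range_succ]
          have : dco N (N + 1) = 0 := by unfold dco; simp
          rw [this]; simp
        rw [e1, e3, add_re, sub_re, mul_re]
        simp
      have h4 : ∑ j ∈ range (N + 1), ‖∑ i ∈ range (j + 1), z ^ i‖ ^ 2 =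
          ∑ j ∈ range N, ‖∑ i ∈ range (j + 1), z ^ i‖ ^ 2 + ‖∑ i ∈ range (N + 1), z ^ i‖ ^ 2 :=
        sum_range_succ _ _
      rw [h1, ih, h4]
      have h2 : ∑ i ∈ range (N + 1 + 1), z ^ i = 1 + z * ∑ i ∈ range (N + 1), z ^ i := by
        rw [sum_range_succ', mul_sum, add_comm, pow_zero]
        congr 1
        exact sum_congr rfl fun i _ => by rw [pow_succ']
      have h3 : ‖∑ i ∈ range (N + 1 + 1), z ^ i‖ ^ 2 =
          2 * (∑ i ∈ range (N + 1 + 1), z ^ i).re - 1 + ‖z‖ ^ 2 * ‖∑ i ∈ range (N + 1), z ^ i‖ ^ 2 := by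
        rw [h2, ← mul_pow, ← norm_mul]
        generalize z * ∑ i ∈ range (N + 1), z ^ i = u
        rw [← normSq_eq_norm_sq, ← normSq_eq_norm_sq, normSq_apply, normSq_apply]
        simp
        ring
      rw [h3]
      ring
  rw [key]
  have : 0 ≤ 1 - ‖z‖ ^ 2 := by nlinarith [norm_nonneg z]
  positivity

/-- orthogonality of the `L`-th roots of unity -/
theorem orth (L p q : ℕ) (hp : p < L) (hq : q < L) :
    ∑ j ∈ range L, (exp (2 * Real.pi * I / L) ^ j) ^ p *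
      (starRingEnd ℂ) ((exp (2 * Real.pi * I / L) ^ j) ^ q) = if p = q then (L : ℂ) else 0 := by
  have hL : L ≠ 0 := by omega
  set ζ : ℂ := exp (2 * Real.pi * I / L) with hζ
  have hprim : IsPrimitiveRoot ζ L := Complex.isPrimitiveRoot_exp L hL
  have hnorm : ‖ζ‖ = 1 := by
    rw [hζ]
    have : (2 * Real.pi * I / L : ℂ) = ((2 * Real.pi / L : ℝ) : ℂ) * I := by push_cast; ring
    rw [this, Complex.norm_exp_ofReal_mul_I]
  have hζ0 : ζ ≠ 0 := by intro h; rw [h] at hnorm; simp at hnorm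
  have hconj : (starRingEnd ℂ) ζ = ζ⁻¹ := by
    rw [Complex.inv_def, normSq_eq_norm_sq, hnorm]; simp
  have h1 : ∀ j, (ζ ^ j) ^ p * (starRingEnd ℂ) ((ζ ^ j) ^ q) = (ζ ^ p * (ζ ^ q)⁻¹) ^ j := by
    intro j
    rw [map_pow, map_pow, hconj, mul_pow, ← pow_mul, ← pow_mul, ← inv_pow, ← pow_mul, ← pow_mul,
      mul_comm j p, mul_comm j q]
  rw [sum_congr rfl fun j _ => h1 j]
  split_ifs with h
  · rw [h, mul_inv_cancel₀ (pow_ne_zero _ hζ0)]
    simp
  · have hne : ζ ^ p * (ζ ^ q)⁻¹ ≠ 1 := by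
      intro h2
      have h3 : ζ ^ p = ζ ^ q := by
        field_simp at h2
        exact h2
      exact h (hprim.pow_inj hp hq h3)
    have h4 : (ζ ^ p * (ζ ^ q)⁻¹) ^ L = 1 := by
      rw [mul_pow, inv_pow, ← pow_mul, ← pow_mul, mul_comm p, mul_comm q, pow_mul, pow_mul,
        hprim.pow_eq_one]
      simp
    have h5 := mul_neg_geom_sum (ζ ^ p * (ζ ^ q)⁻¹) L
    rw [h4, sub_self] at h5
    rcases mul_eq_zero.mp h5 with h6 | h6
    · exact absurd (sub_eq_zero.mp h6).symm hne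
    · exact h6

variable {H : Type*} [NormedAddCommGroup H] [InnerProductSpace ℂ H]

/-- positivity of the real part for a unital contraction -/
theorem re_nonneg (M : ℕ → H →L[ℂ] H) (h0 : M 0 = (2 : ℂ) • 1)
    (h : ∀ (N : ℕ) (c : ℕ → ℂ) (C : ℝ),
      (∀ z : ℂ, ‖z‖ ≤ 1 → ‖∑ n ∈ range (N + 1), c n * z ^ n‖ ≤ C) →
      ‖∑ n ∈ range (N + 1), c n • M n‖ ≤ 2 * C)
    (N : ℕ) (c : ℕ → ℂ)
    (hc : ∀ z : ℂ, ‖z‖ ≤ 1 → 0 ≤ (∑ n ∈ range (N + 1), c n * z ^ n).re) (v : H) :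
    0 ≤ (inner ℂ v ((∑ n ∈ range (N + 1), c n • M n) v)).re := by
  set C : ℝ := ∑ n ∈ range (N + 1), ‖c n‖ with hC
  have hC0 : 0 ≤ C := by positivity
  have hbd : ∀ z : ℂ, ‖z‖ ≤ 1 → ‖∑ n ∈ range (N + 1), c n * z ^ n‖ ≤ C := by
    intro z hz
    refine (norm_sum_le _ _).trans (sum_le_sum fun n _ => ?_)
    rw [norm_mul, norm_pow]
    calc ‖c n‖ * ‖z‖ ^ n ≤ ‖c n‖ * 1 := by gcongr; exact pow_le_one₀ (norm_nonneg _) hz
      _ = ‖c n‖ := mul_one _
  set P := ∑ n ∈ range (N + 1), c n • M n with hP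
  have hkey : ∀ t : ℝ, 0 < t → -(2 * t * C ^ 2 * ‖v‖ ^ 2) ≤ (inner ℂ v (P v)).re := by
    intro t ht
    have h1 : ‖∑ n ∈ range (N + 1), ((if n = 0 then (1 : ℂ) else 0) - (t : ℂ) * c n) • M n‖ ≤
        2 * (1 + t ^ 2 * C ^ 2) := by
      apply h
      intro z hz
      have e1 : ∑ n ∈ range (N + 1), ((if n = 0 then (1 : ℂ) else 0) - (t : ℂ) * c n) * z ^ n =
          1 - (t : ℂ) * ∑ n ∈ range (N + 1), c n * z ^ n := by
        rw [mul_sum]
        have : (1 : ℂ) = ∑ n ∈ range (N + 1), (if n = 0 then (1 : ℂ) else 0) * z ^ n := by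
          rw [sum_range_succ']; simp
        conv_rhs => rw [this]
        rw [← sum_sub_distrib]
        refine sum_congr rfl fun n _ => by ring
      rw [e1]
      set u := ∑ n ∈ range (N + 1), c n * z ^ n with hu
      have hu1 : ‖u‖ ≤ C := hbd z hz
      have hu2 : 0 ≤ u.re := hc z hz
      have h2 : ‖1 - (t : ℂ) * u‖ ^ 2 ≤ 1 + t ^ 2 * C ^ 2 := by
        have h3 : ‖u‖ ^ 2 ≤ C ^ 2 := by gcongr
        rw [← normSq_eq_norm_sq, normSq_apply] at h3
        rw [← normSq_eq_norm_sq, normSq_apply]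
        simp only [sub_re, one_re, mul_re, ofReal_re, ofReal_im, zero_mul, sub_zero, sub_im, one_im,
          mul_im, add_zero, zero_sub]
        have h4 : 0 ≤ t * u.re := by positivity
        have h5 : t ^ 2 * (u.re * u.re + u.im * u.im) ≤ t ^ 2 * C ^ 2 := by gcongr
        nlinarith
      have h6 : (1 : ℝ) ≤ 1 + t ^ 2 * C ^ 2 := by nlinarith [sq_nonneg (t * C)]
      have h7 : (1 + t ^ 2 * C ^ 2) ≤ (1 + t ^ 2 * C ^ 2) ^ 2 := by nlinarith
      exact abs_le_of_sq_le_sq' (h2.trans h7) (by positivity) |>.2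
    have e2 : ∑ n ∈ range (N + 1), ((if n = 0 then (1 : ℂ) else 0) - (t : ℂ) * c n) • M n =
        (2 : ℂ) • 1 - (t : ℂ) • P := by
      rw [hP, smul_sum]
      have : ((2 : ℂ) • (1 : H →L[ℂ] H)) =
          ∑ n ∈ range (N + 1), (if n = 0 then (1 : ℂ) else 0) • M n := by
        rw [sum_range_succ']; simp [h0]
      rw [this, ← sum_sub_distrib]
      refine sum_congr rfl fun n _ => by rw [sub_smul, smul_smul]
    rw [e2] at h1
    have h3 : (inner ℂ v (((2 : ℂ) • (1 : H →L[ℂ] H) - (t : ℂ) • P) v)).re ≤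
        2 * (1 + t ^ 2 * C ^ 2) * ‖v‖ ^ 2 := by
      calc (inner ℂ v (((2 : ℂ) • (1 : H →L[ℂ] H) - (t : ℂ) • P) v)).re
          ≤ ‖inner ℂ v (((2 : ℂ) • (1 : H →L[ℂ] H) - (t : ℂ) • P) v)‖ := Complex.re_le_norm _
        _ ≤ ‖v‖ * ‖((2 : ℂ) • (1 : H →L[ℂ] H) - (t : ℂ) • P) v‖ := norm_inner_le_norm _ _
        _ ≤ ‖v‖ * (2 * (1 + t ^ 2 * C ^ 2) * ‖v‖) := by
            gcongr
            exact (ContinuousLinearMap.le_opNorm _ _).trans (by gcongr)
        _ = _ := by ring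
    have h4 : (inner ℂ v (((2 : ℂ) • (1 : H →L[ℂ] H) - (t : ℂ) • P) v)).re =
        2 * ‖v‖ ^ 2 - t * (inner ℂ v (P v)).re := by
      have : ((2 : ℂ) • (1 : H →L[ℂ] H) - (t : ℂ) • P) v = (2 : ℂ) • v - (t : ℂ) • P v := rfl
      rw [this, inner_sub_right, inner_smul_right, inner_smul_right, sub_re, re_ofReal_mul]
      congr 1
      have h5 : (inner ℂ v v : ℂ) = ((‖v‖ ^ 2 : ℝ) : ℂ) := by
        rw [inner_self_eq_norm_sq_to_K]; push_cast; rfl
      rw [h5]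
      have : (2 : ℂ) * ((‖v‖ ^ 2 : ℝ) : ℂ) = ((2 * ‖v‖ ^ 2 : ℝ) : ℂ) := by push_cast; ring
      rw [this, ofReal_re]
    rw [h4] at h3
    have h5 : t * (-(2 * t * C ^ 2 * ‖v‖ ^ 2)) ≤ t * (inner ℂ v (P v)).re := by nlinarith
    exact le_of_mul_le_mul_left h5 ht
  by_contra hneg
  push Not at hneg
  set r := (inner ℂ v (P v)).re with hr
  have hD : 0 < 2 * C ^ 2 * ‖v‖ ^ 2 + 1 := by positivity
  have := hkey (-r / (2 * (2 * C ^ 2 * ‖v‖ ^ 2 + 1))) (by apply div_pos <;> linarith)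
  have h6 : 2 * (-r / (2 * (2 * C ^ 2 * ‖v‖ ^ 2 + 1))) * C ^ 2 * ‖v‖ ^ 2 =
      (-r / 2) * ((2 * C ^ 2 * ‖v‖ ^ 2) / (2 * C ^ 2 * ‖v‖ ^ 2 + 1)) := by
    field_simp
  rw [h6] at this
  have h7 : (2 * C ^ 2 * ‖v‖ ^ 2) / (2 * C ^ 2 * ‖v‖ ^ 2 + 1) ≤ 1 := by
    rw [div_le_one hD]; linarith
  nlinarith

end Pool.Agent.W753.CZ
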